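import Pool.Agent.Helper61.P3.St1

/-!
# Project P3 (MP_cb927e_an): module GE (the energy density)
-/

set_option autoImplicit false

open MeasureTheory Set Filter Topology
open scoped ENNReal RealInnerProductSpace

namespace Pool.Agent.Helper76.P3

open Pool.Agent.Helper61.P3
open Pool.Agent.Helper68.LM (Pl BB Bd Av HL ft fm DQ)
open Pool.Agent.Helper20.RG
open Pool.Agent.Helper20.EQ
open Pool.Agent.Helper68.EP (elt GapP)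

private theorem measurable_Tc : Measurable Tc := by
  unfold Tc
  exact measurable_id.div (measurable_const.add measurable_id)

/-- averages of a difference -/
private theorem Ed_sub (hGA : StGA) {κ : ℤ → ℝ} (hκ : Gr κ) {f g : ℝ → ℝ} {M M' : ℝ} (a : ℤ)
    (hf : Measurable f) (hfM : ∀ t, |f t| ≤ M) (hg : Measurable g) (hgM : ∀ t, |g t| ≤ M')
    (t : ℝ) : Ed κ a (fun r => f r - g r) t = Ed κ a f t - Ed κ a g t := by
  obtain ⟨-, -, -, -, -, hlin, -⟩ := hGA κ hκ f M a hf hfM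
  have h := hlin g M' 1 (-1) hg hgM t
  have e : (fun r => 1 * f r + -1 * g r) = fun r => f r - g r := by
    funext r
    ring
  rw [e] at h
  rw [h]
  ring

private theorem Ed_mul (hGA : StGA) {κ : ℤ → ℝ} (hκ : Gr κ) {f : ℝ → ℝ} {M : ℝ} (Γ : ℝ) (a : ℤ)
    (hf : Measurable f) (hfM : ∀ t, |f t| ≤ M)
    (t : ℝ) : Ed κ a (fun r => Γ * f r) t = Γ * Ed κ a f t := by
  obtain ⟨-, -, -, -, -, hlin, -⟩ := hGA κ hκ f M a hf hfM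
  have h := hlin f M Γ 0 hf hfM t
  have e : (fun r => Γ * f r + 0 * f r) = fun r => Γ * f r := by
    funext r
    ring
  rw [e] at h
  rw [h]
  ring

private theorem Ed_mono (hGA : StGA) {κ : ℤ → ℝ} (hκ : Gr κ) {f g : ℝ → ℝ} {M M' : ℝ} (a : ℤ)
    (hf : Measurable f) (hfM : ∀ t, |f t| ≤ M) (hg : Measurable g) (hgM : ∀ t, |g t| ≤ M')
    (h : ∀ t, f t ≤ g t) (t : ℝ) : Ed κ a f t ≤ Ed κ a g t := by
  obtain ⟨-, -, -, -, hmono, -⟩ := hGA κ hκ f M a hf hfM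
  exact hmono g M' hg hgM h t

private theorem Ed_abs (hGA : StGA) {κ : ℤ → ℝ} (hκ : Gr κ) {f g : ℝ → ℝ} {M M' : ℝ} (a : ℤ)
    (hf : Measurable f) (hfM : ∀ t, |f t| ≤ M) (hg : Measurable g) (hgM : ∀ t, |g t| ≤ M')
    (t : ℝ) : |Ed κ a f t - Ed κ a g t| ≤ Ed κ a (fun r => |f r - g r|) t := by
  have hd : Measurable (fun r => f r - g r) := hf.sub hg
  have hda : Measurable (fun r => |f r - g r|) := hd.abs
  have hdM : ∀ r, |f r - g r| ≤ M + M' := fun r =>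
    (abs_sub (f r) (g r)).trans (add_le_add (hfM r) (hgM r))
  have hdaM : ∀ r, |(|f r - g r|)| ≤ M + M' := fun r => by
    rw [abs_abs]
    exact hdM r
  have hd' : Measurable (fun r => g r - f r) := hg.sub hf
  have hdM' : ∀ r, |g r - f r| ≤ M + M' := fun r => by
    rw [abs_sub_comm]
    exact hdM r
  rw [abs_le]
  constructor
  · have h1 := Ed_mono hGA hκ a hd' hdM' hda hdaM
      (fun r => by rw [abs_sub_comm]; exact le_abs_self _) t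
    rw [Ed_sub hGA hκ a hg hgM hf hfM t] at h1
    linarith
  · have h1 := Ed_mono hGA hκ a hd hdM hda hdaM (fun r => le_abs_self _) t
    rw [Ed_sub hGA hκ a hf hfM hg hgM t] at h1
    exact h1

/-- basic facts about the functions `X b = Γ Ed κ b β` and `Tc (X b)` -/
private theorem basic (hGA : StGA) (hGJ : StGJ) {κ : ℤ → ℝ} (hκ : Gr κ) {β : ℝ → ℝ} {Γ : ℝ}
    (hβ : Measurable β) (hβ1 : ∀ t, 0 ≤ β t ∧ β t ≤ 1) (hΓ : 0 ≤ Γ) (b : ℤ) :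
    Measurable (Ed κ b β) ∧ (∀ t, 0 ≤ Ed κ b β t ∧ Ed κ b β t ≤ 1) ∧
    Measurable (fun r => Γ * Ed κ b β r) ∧ (∀ t, 0 ≤ Γ * Ed κ b β t ∧ Γ * Ed κ b β t ≤ Γ) ∧
    Measurable (fun r => Tc (Γ * Ed κ b β r)) ∧
    (∀ t, 0 ≤ Tc (Γ * Ed κ b β t) ∧ Tc (Γ * Ed κ b β t) ≤ 1 ∧
      |Tc (Γ * Ed κ b β t)| ≤ 1) := by
  have hβa : ∀ t, |β t| ≤ 1 := fun t => by
    rw [abs_of_nonneg (hβ1 t).1]
    exact (hβ1 t).2
  obtain ⟨h1, h2, -, h4, -⟩ := hGA κ hκ β 1 b hβ hβa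
  have h5 : ∀ t, 0 ≤ Ed κ b β t := h4 (fun t => (hβ1 t).1)
  have h6 : ∀ t, Ed κ b β t ≤ 1 := fun t => (le_abs_self _).trans (h2 t)
  have h7 : Measurable (fun r => Γ * Ed κ b β r) := h1.const_mul Γ
  have h8 : ∀ t, 0 ≤ Γ * Ed κ b β t := fun t => mul_nonneg hΓ (h5 t)
  have h9 : ∀ t, Γ * Ed κ b β t ≤ Γ := fun t => by
    have := mul_le_mul_of_nonneg_left (h6 t) hΓ
    linarith
  have h10 : ∀ t, 0 ≤ Tc (Γ * Ed κ b β t) := fun t => (hGJ.1 _ _ (h8 t) (h8 t)).1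
  have h11 : ∀ t, Tc (Γ * Ed κ b β t) ≤ 1 := fun t => (hGJ.1 _ _ (h8 t) (h8 t)).2.2.1
  refine ⟨h1, fun t => ⟨h5 t, h6 t⟩, h7, fun t => ⟨h8 t, h9 t⟩, measurable_Tc.comp h7,
    fun t => ⟨h10 t, h11 t, ?_⟩⟩
  rw [abs_of_nonneg (h10 t)]
  exact h11 t

/-- tower for `X` -/
private theorem tower (hGA : StGA) {κ : ℤ → ℝ} (hκ : Gr κ) {β : ℝ → ℝ} {M : ℝ}
    (hβ : Measurable β) (hβM : ∀ t, |β t| ≤ M) (Γ : ℝ) {a ℓ : ℤ} (hal : a ≤ ℓ)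
    (t : ℝ) : Ed κ ℓ (fun r => Γ * Ed κ a β r) t = Γ * Ed κ ℓ β t := by
  obtain ⟨h1, h2, -, -, -, -, htow, -⟩ := hGA κ hκ β M a hβ hβM
  rw [Ed_mul hGA hκ Γ ℓ h1 h2 t, htow ℓ hal t]

private theorem en_nonneg (hGA : StGA) (hGJ : StGJ) {κ : ℤ → ℝ} (hκ : Gr κ) {β : ℝ → ℝ} {Γ : ℝ}
    (hβ : Measurable β) (hβ1 : ∀ t, 0 ≤ β t ∧ β t ≤ 1) (hΓ : 0 ≤ Γ) {a ℓ : ℤ} (hal : a ≤ ℓ)
    (t : ℝ) : 0 ≤ en κ Γ a ℓ β t := by
  obtain ⟨-, -, h3, h4, -, -⟩ := basic hGA hGJ hκ hβ hβ1 hΓ a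
  have hβa : ∀ t, |β t| ≤ 1 := fun t => by
    rw [abs_of_nonneg (hβ1 t).1]
    exact (hβ1 t).2
  have h := (hGJ.2 κ hκ (fun r => Γ * Ed κ a β r) Γ ℓ h3 h4 t).1
  rw [tower hGA hκ hβ hβa Γ hal t] at h
  unfold en
  linarith

private theorem en_meas (hGA : StGA) (hGJ : StGJ) {κ : ℤ → ℝ} (hκ : Gr κ) {β : ℝ → ℝ} {Γ : ℝ}
    (hβ : Measurable β) (hβ1 : ∀ t, 0 ≤ β t ∧ β t ≤ 1) (hΓ : 0 ≤ Γ) (a ℓ : ℤ) :
    Measurable (en κ Γ a ℓ β) := by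
  obtain ⟨-, -, -, -, h5, h6⟩ := basic hGA hGJ hκ hβ hβ1 hΓ a
  obtain ⟨-, -, -, -, h5', -⟩ := basic hGA hGJ hκ hβ hβ1 hΓ ℓ
  obtain ⟨h7, -⟩ := hGA κ hκ (fun r => Tc (Γ * Ed κ a β r)) 1 ℓ h5 (fun t => (h6 t).2.2)
  exact h5'.sub h7

private theorem en_bds (hGA : StGA) (hGJ : StGJ) {κ : ℤ → ℝ} (hκ : Gr κ) {β : ℝ → ℝ} {Γ : ℝ}
    (hβ : Measurable β) (hβ1 : ∀ t, 0 ≤ β t ∧ β t ≤ 1) (hΓ : 0 ≤ Γ) (a ℓ : ℤ) (t : ℝ) :
    en κ Γ a ℓ β t ≤ Γ * Ed κ ℓ β t ∧ en κ Γ a ℓ β t ≤ 1 := by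
  obtain ⟨-, -, -, -, h5, h6⟩ := basic hGA hGJ hκ hβ hβ1 hΓ a
  obtain ⟨-, -, -, h4', -, h6'⟩ := basic hGA hGJ hκ hβ hβ1 hΓ ℓ
  obtain ⟨-, -, -, h7, -⟩ := hGA κ hκ (fun r => Tc (Γ * Ed κ a β r)) 1 ℓ h5 (fun t => (h6 t).2.2)
  have h8 := h7 (fun t => (h6 t).1) t
  have h9 := (hGJ.1 _ _ (h4' t).1 (h4' t).1).2.1
  have h10 := (h6' t).2.1
  unfold en
  constructor <;> linarith

/-- GE -/
theorem hGE (_hGR : Pool.Agent.Helper61.P3.StGR) (hGA : Pool.Agent.Helper61.P3.StGA)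
    (hGJ : Pool.Agent.Helper61.P3.StGJ) : Pool.Agent.Helper61.P3.StGE := by
  intro κ hκ β Γ a ℓ hβ hβ1 hΓ hal
  have hβa : ∀ t, |β t| ≤ 1 := fun t => by
    rw [abs_of_nonneg (hβ1 t).1]
    exact (hβ1 t).2
  obtain ⟨h1, h2, h3, h4, h5, h6⟩ := basic hGA hGJ hκ hβ hβ1 hΓ a
  obtain ⟨h1', h2', h3', h4', h5', h6'⟩ := basic hGA hGJ hκ hβ hβ1 hΓ ℓ
  refine ⟨en_meas hGA hGJ hκ hβ hβ1 hΓ a ℓ,
    fun t => ⟨en_nonneg hGA hGJ hκ hβ hβ1 hΓ hal t, en_bds hGA hGJ hκ hβ hβ1 hΓ a ℓ t⟩,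
    ?_, ?_, ?_⟩
  · intro t r hr
    obtain ⟨-, -, hc, -⟩ := hGA κ hκ β 1 ℓ hβ hβa
    obtain ⟨-, -, hc', -⟩ := hGA κ hκ (fun r => Tc (Γ * Ed κ a β r)) 1 ℓ h5
      (fun t => (h6 t).2.2)
    unfold en
    rw [hc t r hr, hc' t r hr]
  · intro a' ha1 ha2 t
    obtain ⟨-, -, -, -, g5, g6⟩ := basic hGA hGJ hκ hβ hβ1 hΓ a'
    obtain ⟨k1, k2, -, -, -, -, k7, -⟩ := hGA κ hκ (fun r => Tc (Γ * Ed κ a β r)) 1 a' h5
      (fun t => (h6 t).2.2)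
    have hadd : en κ Γ a ℓ β t = en κ Γ a' ℓ β t + Ed κ ℓ (en κ Γ a a' β) t := by
      have e1 : Ed κ ℓ (en κ Γ a a' β) t =
          Ed κ ℓ (fun r => Tc (Γ * Ed κ a' β r)) t
            - Ed κ ℓ (Ed κ a' (fun r => Tc (Γ * Ed κ a β r))) t :=
        Ed_sub hGA hκ ℓ g5 (fun t => (g6 t).2.2) k1 k2 t
      rw [e1, k7 ℓ ha2 t]
      unfold en
      ring
    refine ⟨?_, hadd⟩
    have hm : Measurable (en κ Γ a a' β) := en_meas hGA hGJ hκ hβ hβ1 hΓ a a'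
    have hn : ∀ r, 0 ≤ en κ Γ a a' β r := fun r => en_nonneg hGA hGJ hκ hβ hβ1 hΓ ha1 r
    have hb : ∀ r, |en κ Γ a a' β r| ≤ 1 := fun r => by
      rw [abs_of_nonneg (hn r)]
      exact (en_bds hGA hGJ hκ hβ hβ1 hΓ a a' r).2
    obtain ⟨-, -, -, hnn, -⟩ := hGA κ hκ (en κ Γ a a' β) 1 ℓ hm hb
    have := hnn hn t
    linarith
  · intro β' hβ' hβ1' t
    have hβa' : ∀ t, |β' t| ≤ 1 := fun t => by
      rw [abs_of_nonneg (hβ1' t).1]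
      exact (hβ1' t).2
    obtain ⟨j1, j2, j3, j4, j5, j6⟩ := basic hGA hGJ hκ hβ' hβ1' hΓ a
    obtain ⟨j1', j2', j3', j4', j5', j6'⟩ := basic hGA hGJ hκ hβ' hβ1' hΓ ℓ
    -- the difference
    have hdm : Measurable (fun r => |β r - β' r|) := (hβ.sub hβ').abs
    have hdb : ∀ r, |(|β r - β' r|)| ≤ 1 := fun r => by
      rw [abs_abs, abs_le]
      constructor
      · have := (hβ1 r).1
        have := (hβ1' r).2
        linarith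
      · have := (hβ1 r).2
        have := (hβ1' r).1
        linarith
    obtain ⟨m1, m2, -⟩ := hGA κ hκ (fun r => |β r - β' r|) 1 a hdm hdb
    have q1 : |Tc (Γ * Ed κ ℓ β t) - Tc (Γ * Ed κ ℓ β' t)| ≤
        Γ * Ed κ ℓ (fun r => |β r - β' r|) t := by
      have w1 := (hGJ.1 _ _ (h4' t).1 (j4' t).1).2.2.2.1
      have w2 := Ed_abs hGA hκ ℓ hβ hβa hβ' hβa' t
      calc |Tc (Γ * Ed κ ℓ β t) - Tc (Γ * Ed κ ℓ β' t)|
          ≤ |Γ * Ed κ ℓ β t - Γ * Ed κ ℓ β' t| := w1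
        _ = Γ * |Ed κ ℓ β t - Ed κ ℓ β' t| := by
            rw [← mul_sub, abs_mul, abs_of_nonneg hΓ]
        _ ≤ Γ * Ed κ ℓ (fun r => |β r - β' r|) t := mul_le_mul_of_nonneg_left w2 hΓ
    have q2 : |Ed κ ℓ (fun r => Tc (Γ * Ed κ a β r)) t -
        Ed κ ℓ (fun r => Tc (Γ * Ed κ a β' r)) t| ≤
        Γ * Ed κ ℓ (fun r => |β r - β' r|) t := by
      have w3 := Ed_abs hGA hκ ℓ h5 (fun t => (h6 t).2.2) j5 (fun t => (j6 t).2.2) t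
      refine w3.trans ?_
      rw [← tower hGA hκ hdm hdb Γ hal t]
      refine Ed_mono (M := 2) (M' := Γ) hGA hκ ℓ (h5.sub j5).abs ?_ (m1.const_mul Γ) ?_ ?_ t
      · intro r
        rw [abs_abs]
        refine (abs_sub _ _).trans ?_
        have := (h6 r).2.2
        have := (j6 r).2.2
        linarith
      · intro r
        rw [abs_mul, abs_of_nonneg hΓ]
        have := mul_le_mul_of_nonneg_left (m2 r) hΓ
        linarith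
      · intro r
        have w1 := (hGJ.1 _ _ (h4 r).1 (j4 r).1).2.2.2.1
        have w2 := Ed_abs hGA hκ a hβ hβa hβ' hβa' r
        calc |Tc (Γ * Ed κ a β r) - Tc (Γ * Ed κ a β' r)|
            ≤ |Γ * Ed κ a β r - Γ * Ed κ a β' r| := w1
          _ = Γ * |Ed κ a β r - Ed κ a β' r| := by
              rw [← mul_sub, abs_mul, abs_of_nonneg hΓ]
          _ ≤ Γ * Ed κ a (fun r => |β r - β' r|) r := mul_le_mul_of_nonneg_left w2 hΓ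
    have q3 : en κ Γ a ℓ β t - en κ Γ a ℓ β' t =
        (Tc (Γ * Ed κ ℓ β t) - Tc (Γ * Ed κ ℓ β' t)) -
        (Ed κ ℓ (fun r => Tc (Γ * Ed κ a β r)) t -
          Ed κ ℓ (fun r => Tc (Γ * Ed κ a β' r)) t) := by
      unfold en
      ring
    rw [q3]
    refine (abs_sub _ _).trans ?_
    linarith

end Pool.Agent.Helper76.P3
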