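import Pool.Agent.Helper61.P3.St4

/-!
# Project P3 (MP_cb927e_an): module NES (near pairs, fixed distance and types)
-/

set_option autoImplicit false

open MeasureTheory Set Filter Topology
open scoped ENNReal RealInnerProductSpace

namespace Pool.Agent.Helper76.P3

open Pool.Agent.Helper61.P3
open Pool.Agent.Helper68.LM (Pl BB Bd Av HL ft fm DQ)
open Pool.Agent.Helper20.RG
open Pool.Agent.Helper20.EQ
open Pool.Agent.Helper68.EP (elt GapP)

/-- the part of `mt` which does not depend on `u` -/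
private noncomputable def ma (V : ℝ) (n ρ : ℕ) : ℝ :=
  V / 22000 * (2 : ℝ) ^ ((ρ : ℝ) - n - ((n : ℝ) + ρ) / 100)

private theorem mt_eq (V : ℝ) (u n ρ : ℕ) : mt V u n ρ = (2 : ℝ) ^ u * ma V n ρ := by
  unfold Pool.Agent.Helper61.P3.mt ma
  have e : (u : ℝ) + ρ - n - ((n : ℝ) + ρ) / 100 = u + ((ρ : ℝ) - n - ((n : ℝ) + ρ) / 100) := by
    ring
  rw [e, Real.rpow_add (by norm_num), Real.rpow_natCast]
  ring

private theorem mt_le (V : ℝ) (u n ρ : ℕ) (h : ma V n ρ ≤ 1) : mt V u n ρ ≤ (2 : ℝ) ^ u := by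
  rw [mt_eq]
  exact mul_le_of_le_one_right (by positivity) h

private theorem ma_le (c : Pl) (φ τ : ℝ → ℝ) (V : ℝ) (u n ρ : ℕ) (k l : ℤ) (f : Pl → ℝ) (x : Pl)
    (h : TY c φ τ V u n ρ k l f x) : ma V n ρ ≤ 1 := by
  have h1 := h.2
  have h2 : (Hh c φ τ u ρ k (lev f (l - 1 + n)) x).ncard ≤ 2 ^ u := by
    have e1 : (Set.Iio (2 ^ u)).ncard = 2 ^ u := by
      rw [← Finset.coe_range, Set.ncard_coe_finset, Finset.card_range]
    rw [← e1]
    exact Set.ncard_le_ncard (fun j hj => hj.1) (Set.finite_Iio _)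
  have h3 : ((Hh c φ τ u ρ k (lev f (l - 1 + n)) x).ncard : ℝ) ≤ (2 : ℝ) ^ u := by exact_mod_cast h2
  have h4 := h1.trans h3
  rw [mt_eq] at h4
  have h5 : (0 : ℝ) < (2 : ℝ) ^ u := by positivity
  by_contra hc
  push Not at hc
  nlinarith

/-- the geometric series -/
private theorem geo : ∃ T : ℝ, 0 < T ∧
    ∑' i : ℕ, ENNReal.ofReal ((2 : ℝ) ^ (-((i : ℝ) / 20))) ≤ ENNReal.ofReal T := by
  set q : ℝ := (2 : ℝ) ^ (-(1 / 20) : ℝ) with hq
  have hq0 : 0 < q := by positivity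
  have hq1 : q < 1 := Real.rpow_lt_one_of_one_lt_of_neg (by norm_num) (by norm_num)
  refine ⟨(1 - q)⁻¹, inv_pos.2 (by linarith), ?_⟩
  have e : ∀ i : ℕ, (2 : ℝ) ^ (-((i : ℝ) / 20)) = q ^ i := by
    intro i
    rw [hq, ← Real.rpow_natCast, ← Real.rpow_mul (by norm_num)]
    congr 1
    ring
  have hs : Summable (fun i : ℕ => q ^ i) := summable_geometric_of_lt_one hq0.le hq1
  rw [tsum_congr (fun i => by rw [e i]), ← ENNReal.ofReal_tsum_of_nonneg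
    (fun i => by positivity) hs, tsum_geometric_of_lt_one hq0.le hq1]

private theorem geo2 (T : ℝ)
    (hT : ∑' i : ℕ, ENNReal.ofReal ((2 : ℝ) ^ (-((i : ℝ) / 20))) ≤ ENNReal.ofReal T) (s : ℕ) :
    ∑' u : ℕ, (if s ≤ 8 * u then ENNReal.ofReal ((2 : ℝ) ^ (-((u : ℝ) / 20))) else 0) ≤
      ENNReal.ofReal ((2 : ℝ) ^ (-((s : ℝ) / 160))) * ENNReal.ofReal T := by
  set u₀ : ℕ := (s + 7) / 8 with hu₀
  set F : ℕ → ℝ≥0∞ :=
    fun u => (if s ≤ 8 * u then ENNReal.ofReal ((2 : ℝ) ^ (-((u : ℝ) / 20))) else 0) with hF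
  have h1 : (∑ i ∈ Finset.range u₀, F i) + ∑' i, F (i + u₀) = ∑' i, F i :=
    Summable.sum_add_tsum_nat_add' ENNReal.summable
  have h2 : ∑ i ∈ Finset.range u₀, F i = 0 := by
    refine Finset.sum_eq_zero (fun i hi => ?_)
    have := Finset.mem_range.1 hi
    simp only [hF]
    rw [if_neg (by omega)]
  rw [← h1, h2, zero_add]
  refine le_trans (ENNReal.tsum_le_tsum (fun i => ?_))
    ((ENNReal.tsum_mul_left (a := ENNReal.ofReal ((2 : ℝ) ^ (-((s : ℝ) / 160))))).le.trans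
      (mul_le_mul_right hT _))
  simp only [hF]
  rw [if_pos (by omega), ← ENNReal.ofReal_mul (by positivity), ← Real.rpow_add (by norm_num)]
  refine ENNReal.ofReal_le_ofReal (Real.rpow_le_rpow_of_exponent_le (by norm_num) ?_)
  have h3 : (s : ℝ) ≤ 8 * u₀ := by
    have : s ≤ 8 * u₀ := by omega
    exact_mod_cast this
  push_cast
  linarith

private theorem e2 (s : ℕ) :
    (2 : ℝ) ^ ((s : ℝ) / 100) * (2 : ℝ) ^ (-(((s / 4 : ℕ) : ℝ) / 8)) ≤
      2 * (2 : ℝ) ^ (-((s : ℝ) / 160)) := by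
  have h1 : (s : ℝ) ≤ 4 * ((s / 4 : ℕ) : ℝ) + 3 := by
    have : s ≤ 4 * (s / 4) + 3 := by omega
    exact_mod_cast this
  have hs : (0 : ℝ) ≤ s := Nat.cast_nonneg s
  calc (2 : ℝ) ^ ((s : ℝ) / 100) * (2 : ℝ) ^ (-(((s / 4 : ℕ) : ℝ) / 8))
      = (2 : ℝ) ^ ((s : ℝ) / 100 + -(((s / 4 : ℕ) : ℝ) / 8)) := by
        rw [Real.rpow_add (by norm_num)]
    _ ≤ (2 : ℝ) ^ (1 + -((s : ℝ) / 160)) := by
        refine Real.rpow_le_rpow_of_exponent_le (by norm_num) ?_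
        linarith
    _ = 2 * (2 : ℝ) ^ (-((s : ℝ) / 160)) := by
        rw [Real.rpow_add (by norm_num), Real.rpow_one]

/-- the terms with `g` -/
private noncomputable def XA (τ : ℝ → ℝ) (CN : ℝ) (U₀ s : ℕ) (u : ℕ) (g : Pl → ℝ) : ℝ≥0∞ :=
  if U₀ ≤ u ∧ s ≤ 8 * u then
    ENNReal.ofReal (CN * (2 : ℝ) ^ (-((s : ℝ) / 8))) *
        (ENNReal.ofReal ((2 : ℝ) ^ (-(3 * (u : ℝ)))) * BQ0 τ u g) +
      ENNReal.ofReal (CN * (2 : ℝ) ^ ((s : ℝ) / 100)) *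
        (ENNReal.ofReal ((2 : ℝ) ^ (-(3 * (u : ℝ)))) * EX τ u (s / 4) g) +
      ENNReal.ofReal (CN * (2 : ℝ) ^ (-((u : ℝ) / 20))) * ∫⁻ x, ‖g x‖ₑ ^ 2
  else 0

/-- the terms with the second function -/
private noncomputable def XB (τ : ℝ → ℝ) (CN : ℝ) (U₀ s : ℕ) (u : ℕ) (g : Pl → ℝ) : ℝ≥0∞ :=
  if U₀ ≤ u ∧ s ≤ 8 * u then
    ENNReal.ofReal (CN * (2 : ℝ) ^ ((s : ℝ) / 100)) *
        (ENNReal.ofReal ((2 : ℝ) ^ (-(3 * ((u : ℝ) + s)))) * EX τ (u + s) (s / 4) g) +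
      ENNReal.ofReal (CN * (2 : ℝ) ^ (-((u : ℝ) / 20))) * ∫⁻ x, ‖g x‖ₑ ^ 2
  else 0

private theorem exp_sum (τ : ℝ → ℝ) (CN CQ T : ℝ) (hCN : 1 ≤ CN) (hCQ : 1 ≤ CQ) (hT0 : 0 < T)
    (hT : ∑' i : ℕ, ENNReal.ofReal ((2 : ℝ) ^ (-((i : ℝ) / 20))) ≤ ENNReal.ofReal T)
    (U₀ s : ℕ) (g : Pl → ℝ) (hU₀ : 2 ≤ U₀)
    (hq1 : ∑' u : ℕ, (if 2 ≤ u then ENNReal.ofReal ((2 : ℝ) ^ (-(3 * (u : ℝ)))) * BQ0 τ u g else 0)
      ≤ ENNReal.ofReal CQ * ∫⁻ x, ‖g x‖ₑ ^ 2)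
    (hq2 : ∑' u : ℕ, (if 2 ≤ u then ENNReal.ofReal ((2 : ℝ) ^ (-(3 * (u : ℝ)))) *
        EX τ u (s / 4) g else 0) ≤
      ENNReal.ofReal (CQ * (2 : ℝ) ^ (-(((s / 4 : ℕ) : ℝ) / 8))) * ∫⁻ x, ‖g x‖ₑ ^ 2) :
    (∑' u : ℕ, XA τ CN U₀ s u g ≤ ENNReal.ofReal ((3 * (CN * CQ) + CN * T) *
      (2 : ℝ) ^ (-((s : ℝ) / 160))) * ∫⁻ x, ‖g x‖ₑ ^ 2) ∧
    (∑' u : ℕ, XB τ CN U₀ s u g ≤ ENNReal.ofReal ((2 * (CN * CQ) + CN * T) *
      (2 : ℝ) ^ (-((s : ℝ) / 160))) * ∫⁻ x, ‖g x‖ₑ ^ 2) := by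
  set I : ℝ≥0∞ := ∫⁻ x, ‖g x‖ₑ ^ 2 with hI
  set w : ℝ := (2 : ℝ) ^ (-((s : ℝ) / 160)) with hw
  have hw0 : 0 < w := by positivity
  have hs0 : (0 : ℝ) ≤ s := Nat.cast_nonneg s
  have hw8 : (2 : ℝ) ^ (-((s : ℝ) / 8)) ≤ w := by
    refine Real.rpow_le_rpow_of_exponent_le (by norm_num) ?_
    linarith
  -- the three sums
  have hS1 : ENNReal.ofReal (CN * (2 : ℝ) ^ (-((s : ℝ) / 8))) *
      ∑' u : ℕ, (if 2 ≤ u then ENNReal.ofReal ((2 : ℝ) ^ (-(3 * (u : ℝ)))) * BQ0 τ u g else 0) ≤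
      ENNReal.ofReal (CN * CQ * w) * I := by
    refine (mul_le_mul_right hq1 _).trans ?_
    rw [← mul_assoc, ← ENNReal.ofReal_mul (by positivity)]
    refine mul_le_mul_left (ENNReal.ofReal_le_ofReal ?_) _
    have h1 : CN * (2 : ℝ) ^ (-((s : ℝ) / 8)) * CQ = CN * CQ * (2 : ℝ) ^ (-((s : ℝ) / 8)) := by ring
    rw [h1]
    exact mul_le_mul_of_nonneg_left hw8 (by positivity)
  have hS2 : ENNReal.ofReal (CN * (2 : ℝ) ^ ((s : ℝ) / 100)) *
      ∑' u : ℕ, (if 2 ≤ u then ENNReal.ofReal ((2 : ℝ) ^ (-(3 * (u : ℝ)))) *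
        EX τ u (s / 4) g else 0) ≤ ENNReal.ofReal (2 * (CN * CQ) * w) * I := by
    refine (mul_le_mul_right hq2 _).trans ?_
    rw [← mul_assoc, ← ENNReal.ofReal_mul (by positivity)]
    refine mul_le_mul_left (ENNReal.ofReal_le_ofReal ?_) _
    have h1 : CN * (2 : ℝ) ^ ((s : ℝ) / 100) * (CQ * (2 : ℝ) ^ (-(((s / 4 : ℕ) : ℝ) / 8))) =
        CN * CQ * ((2 : ℝ) ^ ((s : ℝ) / 100) * (2 : ℝ) ^ (-(((s / 4 : ℕ) : ℝ) / 8))) := by ring
    rw [h1]
    have h2 := mul_le_mul_of_nonneg_left (e2 s) (by positivity : 0 ≤ CN * CQ)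
    linarith
  have hS3 : ∑' u : ℕ, (if s ≤ 8 * u then
      ENNReal.ofReal (CN * (2 : ℝ) ^ (-((u : ℝ) / 20))) * I else 0) ≤
      ENNReal.ofReal (CN * T * w) * I := by
    have h1 : ∀ u : ℕ, (if s ≤ 8 * u then
        ENNReal.ofReal (CN * (2 : ℝ) ^ (-((u : ℝ) / 20))) * I else 0) =
        (if s ≤ 8 * u then ENNReal.ofReal ((2 : ℝ) ^ (-((u : ℝ) / 20))) else 0) *
          (ENNReal.ofReal CN * I) := by
      intro u
      split_ifs
      · rw [ENNReal.ofReal_mul (by positivity)]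
        ring
      · rw [zero_mul]
    rw [tsum_congr h1, ENNReal.tsum_mul_right]
    refine (mul_le_mul_left (geo2 T hT s) _).trans ?_
    rw [← mul_assoc, ← ENNReal.ofReal_mul (by positivity), ← ENNReal.ofReal_mul (by positivity)]
    refine mul_le_mul_left (ENNReal.ofReal_le_ofReal (le_of_eq ?_)) _
    ring
  constructor
  · have hp : ∀ u : ℕ, XA τ CN U₀ s u g ≤
        (ENNReal.ofReal (CN * (2 : ℝ) ^ (-((s : ℝ) / 8))) *
          (if 2 ≤ u then ENNReal.ofReal ((2 : ℝ) ^ (-(3 * (u : ℝ)))) * BQ0 τ u g else 0) +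
        ENNReal.ofReal (CN * (2 : ℝ) ^ ((s : ℝ) / 100)) *
          (if 2 ≤ u then ENNReal.ofReal ((2 : ℝ) ^ (-(3 * (u : ℝ)))) *
            EX τ u (s / 4) g else 0)) +
        (if s ≤ 8 * u then ENNReal.ofReal (CN * (2 : ℝ) ^ (-((u : ℝ) / 20))) * I else 0) := by
      intro u
      unfold XA
      split_ifs with h1 h2 h3
      · exact le_rfl
      · exact absurd h1.2 h3
      · exfalso; omega
      · exfalso; omega
      all_goals exact zero_le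
    refine (ENNReal.tsum_le_tsum hp).trans ?_
    rw [ENNReal.tsum_add, ENNReal.tsum_add, ENNReal.tsum_mul_left, ENNReal.tsum_mul_left]
    refine (add_le_add (add_le_add hS1 hS2) hS3).trans ?_
    rw [← add_mul, ← add_mul, ← ENNReal.ofReal_add (by positivity) (by positivity),
      ← ENNReal.ofReal_add (by positivity) (by positivity)]
    refine mul_le_mul_left (ENNReal.ofReal_le_ofReal (le_of_eq ?_)) _
    ring
  · have hp : ∀ u : ℕ, XB τ CN U₀ s u g ≤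
        ENNReal.ofReal (CN * (2 : ℝ) ^ ((s : ℝ) / 100)) *
          (fun v : ℕ => (if 2 ≤ v then ENNReal.ofReal ((2 : ℝ) ^ (-(3 * (v : ℝ)))) *
            EX τ v (s / 4) g else 0)) (u + s) +
        (if s ≤ 8 * u then ENNReal.ofReal (CN * (2 : ℝ) ^ (-((u : ℝ) / 20))) * I else 0) := by
      intro u
      unfold XB
      by_cases h1 : U₀ ≤ u ∧ s ≤ 8 * u
      · rw [if_pos h1, if_pos h1.2]
        simp only
        rw [if_pos (by omega : 2 ≤ u + s)]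
        push_cast
        exact le_rfl
      · rw [if_neg h1]
        exact zero_le
    refine (ENNReal.tsum_le_tsum hp).trans ?_
    rw [ENNReal.tsum_add, ENNReal.tsum_mul_left]
    have hinj : Function.Injective (fun u : ℕ => u + s) := fun a b h => by
      simpa using h
    have h3 := ENNReal.tsum_comp_le_tsum_of_injective hinj
      (fun v : ℕ => (if 2 ≤ v then ENNReal.ofReal ((2 : ℝ) ^ (-(3 * (v : ℝ)))) *
            EX τ v (s / 4) g else 0))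
    refine (add_le_add ((mul_le_mul_right h3 _).trans hS2) hS3).trans ?_
    rw [← add_mul, ← ENNReal.ofReal_add (by positivity) (by positivity)]
    refine mul_le_mul_left (ENNReal.ofReal_le_ofReal (le_of_eq ?_)) _
    ring

/-- NES -/
theorem hNES (hGDL : Pool.Agent.Helper20.EQ.StGDL) (hRIY : Pool.Agent.Helper61.P3.StRIY)
    (hNUC : Pool.Agent.Helper61.P3.StNUC) (hNEA : Pool.Agent.Helper61.P3.StNEA)
    (hQSU : Pool.Agent.Helper61.P3.StQSU) : Pool.Agent.Helper61.P3.StNES := by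
  intro φ τ A c hG hA hGap
  obtain ⟨CN, UN, hCN, hUN, hN⟩ := hNEA φ τ A c hG hA hGap
  obtain ⟨CQ, hCQ, hQ⟩ := hQSU φ τ A hG hA hGap
  obtain ⟨UC, hUC, -, -, hNU⟩ := hNUC
  obtain ⟨hlev, hloc, -⟩ := hGDL
  obtain ⟨T, hT0, hT⟩ := geo
  have hCNQ : 0 ≤ CN * CQ := by positivity
  have hCNT : 0 ≤ CN * T := by positivity
  refine ⟨2 * CN + 8 * (5 * (CN * CQ) + 2 * (CN * T)), UN + UC + 2100, by linarith, ?_⟩
  intro R₀ s n n' ρ ρ' f hR hs hn hn' hf hf0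
  set C : ℝ := 2 * CN + 8 * (5 * (CN * CQ) + 2 * (CN * T)) with hC
  set U₀ : ℕ := UN + UC + 2100 with hU₀
  by_cases hm : ma (Vs s) n ρ ≤ 1 ∧ ma (Vs s) n' ρ' ≤ 1
  · obtain ⟨hma, hma'⟩ := hm
    obtain ⟨hρ, -, -, hΛ⟩ := hNU s 0 n ρ (by omega) hn (mt_le _ _ _ _ hma)
    obtain ⟨hρ', -, hΛ', hΛ''⟩ := hNU s 0 n' ρ' (by omega) hn' (mt_le _ _ _ _ hma')
    rw [if_pos ⟨hρ, hρ'⟩]
    set w : ℝ := (2 : ℝ) ^ (-((s : ℝ) / 160)) with hw
    have hw0 : 0 < w := by positivity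
    -- the two sums by RIY
    have hsum : ∀ g : Pl → ℝ, BB g → (∀ x, 0 ≤ g x ∧ g x ≤ 1) →
        (∑' u : ℕ, XA τ CN U₀ s u g ≤ ENNReal.ofReal ((3 * (CN * CQ) + CN * T) * w) *
          ∫⁻ x, ‖g x‖ₑ ^ 2) ∧
        (∑' u : ℕ, XB τ CN U₀ s u g ≤ ENNReal.ofReal ((2 * (CN * CQ) + CN * T) * w) *
          ∫⁻ x, ‖g x‖ₑ ^ 2) := by
      intro g hg _
      obtain ⟨q1, q2⟩ := hQ g hg
      exact exp_sum τ CN CQ T hCN hCQ hT0 hT U₀ s g (by omega) q1 (q2 (s / 4) (by omega))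
    have hA1 := hRIY ((3 * (CN * CQ) + CN * T) * w) (XA τ CN U₀ s) (by positivity)
      (fun g hg hg1 => (hsum g hg hg1).1) f n hf hf0
    have hB1 := hRIY ((2 * (CN * CQ) + CN * T) * w) (XB τ CN U₀ s) (by positivity)
      (fun g hg hg1 => (hsum g hg hg1).2) f n' hf hf0
    -- pointwise
    have hpt : ∀ l : ℤ, ∀ u : ℕ, (if U₀ ≤ u ∧ s ≤ 8 * u then
        ∑' k : ℤ, volume {x | Gd R₀ l f x ∧ TY c φ τ (Vs s) u n ρ k l f x ∧
          TY c φ τ (Vs s) (u + s) n' ρ' k l f x} else 0) ≤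
        XA τ CN U₀ s u (lev f (l - 1 + n)) + XB τ CN U₀ s u (lev f (l - 1 + n')) := by
      intro l u
      by_cases h1 : U₀ ≤ u ∧ s ≤ 8 * u
      · rw [if_pos h1]
        unfold XA XB
        rw [if_pos h1, if_pos h1]
        obtain ⟨hg, hg1⟩ := hlev f (l - 1 + n) hf hf0
        obtain ⟨hg', hg1'⟩ := hlev f (l - 1 + n') hf hf0
        have hm1 := (hNU s u n ρ (by omega) hn (mt_le _ _ _ _ hma)).2.1
        have hm2 := (hNU s (u + s) n' ρ' (by omega) hn' (mt_le _ _ _ _ hma')).2.1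
        have hm2' : (2 : ℝ) ^ ((u : ℝ) + s - s / 20000) ≤ mt (Vs s) (u + s) n' ρ' := by
          refine le_trans (le_of_eq ?_) hm2
          push_cast
          rfl
        have hG1 : ∀ x ∈ {x | Gd R₀ l f x}, Loc CN ((4 : ℝ) ^ (1 - (n : ℤ)))
            (lev f (l - 1 + n)) x ∧ Loc CN ((4 : ℝ) ^ (1 - (n' : ℤ))) (lev f (l - 1 + n')) x := by
          intro x hx
          have hCR : 2 * CN ≤ R₀ := by linarith
          have e1 := hloc CN R₀ f l (l - 1 + n) x hCN hCR hf hf0 hx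
          have e1' := hloc CN R₀ f l (l - 1 + n') x hCN hCR hf hf0 hx
          rw [show l - (l - 1 + (n : ℤ)) = 1 - (n : ℤ) by ring] at e1
          rw [show l - (l - 1 + (n' : ℤ)) = 1 - (n' : ℤ) by ring] at e1'
          exact ⟨e1, e1'⟩
        have hmain := hN u s ρ ρ' (mt (Vs s) u n ρ) (mt (Vs s) (u + s) n' ρ')
          ((4 : ℝ) ^ (1 - (n : ℤ))) ((4 : ℝ) ^ (1 - (n' : ℤ))) (lev f (l - 1 + n))
          (lev f (l - 1 + n')) {x | Gd R₀ l f x} (by omega) (by omega) h1.2 hρ hρ' hm1 hm2'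
          (by positivity) hΛ hΛ' hΛ'' hg hg' hg1 hg1' hG1
        have hsub : ∑' k : ℤ, volume {x | Gd R₀ l f x ∧ TY c φ τ (Vs s) u n ρ k l f x ∧
            TY c φ τ (Vs s) (u + s) n' ρ' k l f x} ≤
            ∑' k : ℤ, volume {x | x ∈ {x | Gd R₀ l f x} ∧
              mt (Vs s) u n ρ ≤ ((Hh c φ τ u ρ k (lev f (l - 1 + n)) x).ncard : ℝ) ∧
              mt (Vs s) (u + s) n' ρ' ≤
                ((Hh c φ τ (u + s) ρ' k (lev f (l - 1 + n')) x).ncard : ℝ)} := by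
          refine ENNReal.tsum_le_tsum (fun k => measure_mono ?_)
          intro x hx
          exact ⟨hx.1, hx.2.1.2, hx.2.2.2⟩
        refine (hsub.trans hmain).trans (le_of_eq ?_)
        ring
      · rw [if_neg h1]
        exact zero_le
    -- total
    calc ∑' l : ℤ, ENNReal.ofReal ((2 : ℝ) ^ (3 * l)) * ∑' u : ℕ, (if U₀ ≤ u ∧ s ≤ 8 * u then
        ∑' k : ℤ, volume {x | Gd R₀ l f x ∧ TY c φ τ (Vs s) u n ρ k l f x ∧
          TY c φ τ (Vs s) (u + s) n' ρ' k l f x} else 0)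
        ≤ ∑' l : ℤ, (ENNReal.ofReal ((2 : ℝ) ^ (3 * l)) *
            ∑' u : ℕ, XA τ CN U₀ s u (lev f (l - 1 + n)) +
          ENNReal.ofReal ((2 : ℝ) ^ (3 * l)) *
            ∑' u : ℕ, XB τ CN U₀ s u (lev f (l - 1 + n'))) := by
          refine ENNReal.tsum_le_tsum (fun l => ?_)
          rw [← mul_add, ← ENNReal.tsum_add]
          exact mul_le_mul_right (ENNReal.tsum_le_tsum (hpt l)) _
      _ ≤ ENNReal.ofReal (8 * (2 : ℝ) ^ (-(3 * (n : ℤ))) * ((3 * (CN * CQ) + CN * T) * w)) *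
            (∫⁻ x, ENNReal.ofReal (f x) ^ (3 : ℝ)) +
          ENNReal.ofReal (8 * (2 : ℝ) ^ (-(3 * (n' : ℤ))) * ((2 * (CN * CQ) + CN * T) * w)) *
            (∫⁻ x, ENNReal.ofReal (f x) ^ (3 : ℝ)) := by
          rw [ENNReal.tsum_add]
          exact add_le_add hA1 hB1
      _ ≤ ENNReal.ofReal (C * w) * ∫⁻ x, ENNReal.ofReal (f x) ^ (3 : ℝ) := by
          rw [← add_mul, ← ENNReal.ofReal_add (by positivity) (by positivity)]
          refine mul_le_mul_left (ENNReal.ofReal_le_ofReal ?_) _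
          have z1 : ∀ a : ℕ, (2 : ℝ) ^ (-(3 * (a : ℤ))) ≤ 1 := fun a =>
            zpow_le_one_of_nonpos₀ (by norm_num) (by omega)
          have z2 : 0 ≤ (3 * (CN * CQ) + CN * T) * w := by positivity
          have z3 : 0 ≤ (2 * (CN * CQ) + CN * T) * w := by positivity
          have z4 : 8 * (2 : ℝ) ^ (-(3 * (n : ℤ))) * ((3 * (CN * CQ) + CN * T) * w) ≤
              8 * ((3 * (CN * CQ) + CN * T) * w) := by
            have := mul_le_mul_of_nonneg_right (z1 n) z2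
            linarith
          have z5 : 8 * (2 : ℝ) ^ (-(3 * (n' : ℤ))) * ((2 * (CN * CQ) + CN * T) * w) ≤
              8 * ((2 * (CN * CQ) + CN * T) * w) := by
            have := mul_le_mul_of_nonneg_right (z1 n') z3
            linarith
          have z6 : C * w = 2 * CN * w + (8 * ((3 * (CN * CQ) + CN * T) * w) +
              8 * ((2 * (CN * CQ) + CN * T) * w)) := by
            rw [hC]
            ring
          rw [z6]
          have z7 : 0 ≤ 2 * CN * w := by positivity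
          linarith
  · have hz : ∀ l : ℤ, ENNReal.ofReal ((2 : ℝ) ^ (3 * l)) * ∑' u : ℕ,
        (if U₀ ≤ u ∧ s ≤ 8 * u then
          ∑' k : ℤ, volume {x | Gd R₀ l f x ∧ TY c φ τ (Vs s) u n ρ k l f x ∧
            TY c φ τ (Vs s) (u + s) n' ρ' k l f x} else 0) = 0 := by
      intro l
      have h1 : ∀ u : ℕ, (if U₀ ≤ u ∧ s ≤ 8 * u then
          ∑' k : ℤ, volume {x | Gd R₀ l f x ∧ TY c φ τ (Vs s) u n ρ k l f x ∧
            TY c φ τ (Vs s) (u + s) n' ρ' k l f x} else 0) = 0 := by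
        intro u
        have h2 : ∀ k : ℤ, volume {x | Gd R₀ l f x ∧ TY c φ τ (Vs s) u n ρ k l f x ∧
            TY c φ τ (Vs s) (u + s) n' ρ' k l f x} = 0 := by
          intro k
          have h3 : {x | Gd R₀ l f x ∧ TY c φ τ (Vs s) u n ρ k l f x ∧
            TY c φ τ (Vs s) (u + s) n' ρ' k l f x} = ∅ := by
            rw [Set.eq_empty_iff_forall_notMem]
            intro x hx
            exact hm ⟨ma_le _ _ _ _ _ _ _ _ _ _ _ hx.2.1, ma_le _ _ _ _ _ _ _ _ _ _ _ hx.2.2⟩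
          rw [h3, measure_empty]
        split_ifs
        · rw [tsum_congr h2, tsum_zero]
        · rfl
      rw [tsum_congr h1, tsum_zero, mul_zero]
    rw [tsum_congr hz, tsum_zero]
    exact zero_le

end Pool.Agent.Helper76.P3
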