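import Pool.Agent.Helper61.P3.St3

/-!
# Project P3 (MP_cb927e_an): module ONC (one class)
-/

set_option autoImplicit false

open MeasureTheory Set Filter Topology
open scoped ENNReal RealInnerProductSpace

namespace Pool.Agent.Helper76.P3

open Pool.Agent.Helper61.P3
open Pool.Agent.Helper68.LM (Pl BB Bd Av HL ft fm DQ)
open Pool.Agent.Helper20.RG
open Pool.Agent.Helper20.EQ
open Pool.Agent.Helper68.EP (elt GapP)

private theorem et_eq (ρ : ℕ) : et ρ = 1 / (2 : ℝ) ^ (ρ + 1) := by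
  unfold et
  rw [zpow_neg, one_div]
  norm_cast

private theorem et_pos (ρ : ℕ) : 0 < et ρ := by
  unfold et
  positivity

private theorem et_sq (ρ : ℕ) : (et ρ) ^ 2 = 1 / (4 * (4 : ℝ) ^ ρ) := by
  have h4 : (4 : ℝ) ^ ρ = (2 : ℝ) ^ (2 * ρ) := by
    rw [pow_mul]
    norm_num
  rw [et_eq, div_pow, one_pow, h4]
  congr 1
  ring

private theorem et_le (ρ : ℕ) : et ρ ≤ 1 := by
  rw [et_eq, div_le_one (by positivity)]
  exact one_le_pow₀ (by norm_num)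

private theorem num1 (u ρ : ℕ) (h : 1000 * ρ ≤ u) :
    (4 : ℝ) ^ ρ ≤ (2 : ℝ) ^ ((1 / 500 : ℝ) * u) := by
  have e : (4 : ℝ) ^ ρ = (2 : ℝ) ^ ((2 * ρ : ℝ)) := by
    rw [show (4 : ℝ) = 2 ^ 2 by norm_num, ← pow_mul, ← Real.rpow_natCast]
    push_cast
    rfl
  rw [e]
  refine Real.rpow_le_rpow_of_exponent_le (by norm_num) ?_
  have : (1000 * ρ : ℝ) ≤ u := by exact_mod_cast h
  linarith

private theorem loc_mono {C C' Λ : ℝ} {g : Pl → ℝ} {x : Pl} (h : C' ≤ C) (hL : Loc C Λ g x) :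
    Loc C' Λ g x := by
  intro k
  refine le_trans (lintegral_mono_set ?_) (hL k)
  intro y hy
  have h2 : C' * (2 : ℝ) ^ k ≤ C * (2 : ℝ) ^ k := mul_le_mul_of_nonneg_right h (by positivity)
  exact ⟨hy.1.trans h2, hy.2.trans h2⟩

private theorem fin_sub (N : ℕ) (P : ℕ → Prop) : {j : ℕ | j < N ∧ P j}.Finite :=
  (Set.finite_Iio N).subset (fun _ hj => hj.1)

/-- the number of hits is at most `#NP + #HP` -/
private theorem count1 (c : Pl) (φ τ : ℝ → ℝ) (u ρ : ℕ) (k : ℤ) (g : Pl → ℝ) (x : Pl) :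
    (Hh c φ τ u ρ k g x).ncard ≤
      (NP c φ τ u (et ρ) k g x).ncard + (HP c φ τ u (et ρ) k g x).ncard := by
  refine le_trans (Set.ncard_le_ncard ?_ ?_) (Set.ncard_union_le _ _)
  · intro j hj
    by_cases h : ∃ w ≤ 2 ^ (u / 8), |Zc c φ τ u w k j g x| < et ρ / 2
    · exact Or.inl ⟨hj.1, hj.2, h⟩
    · push Not at h
      exact Or.inr ⟨hj.1, h⟩
  · exact (fin_sub _ _).union (fin_sub _ _)

private theorem count2 (n e : ℕ) (P Q : ℕ → Prop) (hQ : ∀ i < n, Q i)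
    (h : {i : ℕ | i < n ∧ Q i ∧ ¬ P i}.ncard < e) (hen : e ≤ n) :
    n - e + 1 ≤ {i : ℕ | i < n ∧ P i}.ncard := by
  have h1 : n ≤ {i : ℕ | i < n ∧ P i}.ncard + {i : ℕ | i < n ∧ Q i ∧ ¬ P i}.ncard := by
    have e1 : (Set.Iio n).ncard = n := by
      rw [← Finset.coe_range, Set.ncard_coe_finset, Finset.card_range]
    calc n = (Set.Iio n).ncard := e1.symm
      _ ≤ ({i : ℕ | i < n ∧ P i} ∪ {i : ℕ | i < n ∧ Q i ∧ ¬ P i}).ncard := by
          refine Set.ncard_le_ncard ?_ ((fin_sub _ _).union (fin_sub _ _))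
          intro i hi
          by_cases hP : P i
          · exact Or.inl ⟨hi, hP⟩
          · exact Or.inr ⟨hi, hQ i hi, hP⟩
      _ ≤ _ := Set.ncard_union_le _ _
  omega

/-- constants of the persistence estimate -/
private theorem num2 (C₁ m : ℝ) (u ρ : ℕ) (hC₁ : 1 ≤ C₁) (hρ : 1000 * ρ ≤ u)
    (hm : (2 : ℝ) ^ ((1999 / 2000 : ℝ) * u) ≤ m) :
    C₁ * (2 : ℝ) ^ ((7 / 8 : ℝ) * u) / (m / 2 * et ρ ^ 2) ≤
      8 * C₁ * (2 : ℝ) ^ (-((u : ℝ) / 20)) := by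
  have hM : (0 : ℝ) < (2 : ℝ) ^ ((1999 / 2000 : ℝ) * u) := by positivity
  have hm0 : 0 < m := lt_of_lt_of_le hM hm
  rw [et_sq]
  have e1 : C₁ * (2 : ℝ) ^ ((7 / 8 : ℝ) * u) / (m / 2 * (1 / (4 * (4 : ℝ) ^ ρ))) =
      8 * C₁ * ((2 : ℝ) ^ ((7 / 8 : ℝ) * u) * (4 : ℝ) ^ ρ * (1 / m)) := by
    field_simp
    ring
  rw [e1]
  refine mul_le_mul_of_nonneg_left ?_ (by positivity)
  have e2 : 1 / m ≤ 1 / (2 : ℝ) ^ ((1999 / 2000 : ℝ) * u) := one_div_le_one_div_of_le hM hm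
  have e3 := num1 u ρ hρ
  have hu : (0 : ℝ) ≤ u := Nat.cast_nonneg u
  calc (2 : ℝ) ^ ((7 / 8 : ℝ) * u) * (4 : ℝ) ^ ρ * (1 / m)
      ≤ (2 : ℝ) ^ ((7 / 8 : ℝ) * u) * (2 : ℝ) ^ ((1 / 500 : ℝ) * u) *
        (1 / (2 : ℝ) ^ ((1999 / 2000 : ℝ) * u)) := by gcongr
    _ = (2 : ℝ) ^ ((7 / 8 : ℝ) * u + (1 / 500 : ℝ) * u - (1999 / 2000 : ℝ) * u) := by
        rw [Real.rpow_sub (by norm_num), Real.rpow_add (by norm_num)]
        ring
    _ ≤ (2 : ℝ) ^ (-((u : ℝ) / 20)) := by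
        refine Real.rpow_le_rpow_of_exponent_le (by norm_num) ?_
        linarith

/-- constants of the bad windows -/
private theorem num3 (C₃ D η q : ℝ) (u e : ℕ) (hC₃ : 1 ≤ C₃) (hη : 0 < η) (hD : 0 < D)
    (hDη : (2 : ℝ) ^ (-(u : ℝ)) ≤ D * η ^ 2) (hq0 : 0 ≤ q) (hq : q ≤ (1 / 2 : ℝ) ^ 175)
    (he : u ≤ 25 * (e - 1)) :
    C₃ * (4 : ℝ) ^ u * q ^ (e - 1) / (D * η ^ 2) * (2 : ℝ) ^ (3 * u) ≤
      C₃ * (2 : ℝ) ^ (-((u : ℝ) / 20)) := by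
  have hDη0 : 0 < D * η ^ 2 := by positivity
  have h1 : q ^ (e - 1) ≤ (1 / 2 : ℝ) ^ (7 * u) := by
    calc q ^ (e - 1) ≤ ((1 / 2 : ℝ) ^ 175) ^ (e - 1) := pow_le_pow_left₀ hq0 hq _
      _ = (1 / 2 : ℝ) ^ (175 * (e - 1)) := by rw [← pow_mul]
      _ ≤ (1 / 2 : ℝ) ^ (7 * u) := pow_le_pow_of_le_one (by norm_num) (by norm_num) (by omega)
  have h2 : 1 / (D * η ^ 2) ≤ (2 : ℝ) ^ u := by
    have h3 : (2 : ℝ) ^ (-(u : ℝ)) = 1 / (2 : ℝ) ^ u := by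
      rw [Real.rpow_neg (by norm_num), Real.rpow_natCast, one_div]
    rw [h3] at hDη
    rw [div_le_iff₀ hDη0]
    rw [div_le_iff₀ (by positivity)] at hDη
    linarith
  have h4 : C₃ * (4 : ℝ) ^ u * q ^ (e - 1) / (D * η ^ 2) * (2 : ℝ) ^ (3 * u) =
      C₃ * ((4 : ℝ) ^ u * (2 : ℝ) ^ (3 * u) * q ^ (e - 1) * (1 / (D * η ^ 2))) := by ring
  rw [h4]
  refine mul_le_mul_of_nonneg_left ?_ (by positivity)
  calc (4 : ℝ) ^ u * (2 : ℝ) ^ (3 * u) * q ^ (e - 1) * (1 / (D * η ^ 2))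
      ≤ (4 : ℝ) ^ u * (2 : ℝ) ^ (3 * u) * (1 / 2 : ℝ) ^ (7 * u) * (2 : ℝ) ^ u := by
        gcongr
    _ = 1 / (2 : ℝ) ^ u := by
        rw [show (4 : ℝ) = 2 ^ 2 by norm_num, ← pow_mul, div_pow, one_pow,
          eq_div_iff (by positivity), mul_one_div, ← pow_add,
          div_mul_eq_mul_div, div_mul_eq_mul_div, div_eq_iff (by positivity), one_mul,
          ← pow_add, ← pow_add]
        congr 1
        ring
    _ = (2 : ℝ) ^ (-(u : ℝ)) := by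
        rw [Real.rpow_neg (by norm_num), Real.rpow_natCast, one_div]
    _ ≤ (2 : ℝ) ^ (-((u : ℝ) / 20)) := by
        refine Real.rpow_le_rpow_of_exponent_le (by norm_num) ?_
        have hu : (0 : ℝ) ≤ u := Nat.cast_nonneg u
        linarith

private theorem num4 (K : ℝ) : ∃ N₀ : ℕ, ∀ u : ℕ, N₀ ≤ u → K ≤ (2 : ℝ) ^ ((1 / 2 : ℝ) * u) := by
  refine ⟨2 * ⌈K⌉₊, fun u hu => ?_⟩
  have h1 : K ≤ (⌈K⌉₊ : ℝ) := Nat.le_ceil K
  have h2 : ((⌈K⌉₊ : ℕ) : ℝ) ≤ (2 : ℝ) ^ ⌈K⌉₊ := by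
    exact_mod_cast (Nat.lt_two_pow_self (n := ⌈K⌉₊)).le
  have h3 : (2 : ℝ) ^ ⌈K⌉₊ ≤ (2 : ℝ) ^ ((1 / 2 : ℝ) * u) := by
    rw [← Real.rpow_natCast]
    refine Real.rpow_le_rpow_of_exponent_le (by norm_num) ?_
    have : ((2 * ⌈K⌉₊ : ℕ) : ℝ) ≤ u := by exact_mod_cast hu
    push_cast at this
    linarith
  linarith

/-- the density is small compared with the number of hits -/
private theorem num5 (L C₂ Λ m : ℝ) (u ρ : ℕ) (hL : 1 ≤ L) (hC₂ : 1 ≤ C₂) (hΛ0 : 0 < Λ)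
    (hΛ : Λ ≤ 4) (hρ : 1000 * ρ ≤ u) (hK : 128000 * L * C₂ ≤ (2 : ℝ) ^ ((1 / 2 : ℝ) * u))
    (hm : (2 : ℝ) ^ ((1999 / 2000 : ℝ) * u) ≤ m) :
    4000 * (L * (C₂ * Λ / et ρ ^ 2)) ≤ m / 2 ∧ 1000 ≤ m / 2 := by
  have e3 := num1 u ρ hρ
  have hu : (0 : ℝ) ≤ u := Nat.cast_nonneg u
  have h1 : (2 : ℝ) ^ ((1 / 2 : ℝ) * u) * (2 : ℝ) ^ ((1 / 500 : ℝ) * u) ≤ m := by
    refine le_trans ?_ hm
    rw [← Real.rpow_add (by norm_num)]
    refine Real.rpow_le_rpow_of_exponent_le (by norm_num) ?_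
    linarith
  have h2 : (1 : ℝ) ≤ (2 : ℝ) ^ ((1 / 500 : ℝ) * u) :=
    Real.one_le_rpow (by norm_num) (by positivity)
  have h3 : 128000 * L * C₂ * (2 : ℝ) ^ ((1 / 500 : ℝ) * u) ≤ m :=
    (mul_le_mul_of_nonneg_right hK (by positivity)).trans h1
  have hLC : 1 ≤ L * C₂ := by nlinarith
  constructor
  · rw [et_sq]
    have e1 : 4000 * (L * (C₂ * Λ / (1 / (4 * (4 : ℝ) ^ ρ)))) =
        16000 * (L * C₂) * (Λ * (4 : ℝ) ^ ρ) := by
      field_simp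
      ring
    rw [e1]
    have e2 : Λ * (4 : ℝ) ^ ρ ≤ 4 * (2 : ℝ) ^ ((1 / 500 : ℝ) * u) := by gcongr
    have e4 : 16000 * (L * C₂) * (Λ * (4 : ℝ) ^ ρ) ≤
        16000 * (L * C₂) * (4 * (2 : ℝ) ^ ((1 / 500 : ℝ) * u)) :=
      mul_le_mul_of_nonneg_left e2 (by positivity)
    linarith
  · nlinarith

/-- ONC -/
theorem hONC (hPES : Pool.Agent.Helper61.P3.StPES) (hLZB : Pool.Agent.Helper61.P3.StLZB)
    (hBAD : Pool.Agent.Helper61.P3.StBAD) (hAVE : Pool.Agent.Helper61.P3.StAVE)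
    (hWIG : Pool.Agent.Helper61.P3.StWIG) (hWLI : Pool.Agent.Helper61.P3.StWLI) :
    Pool.Agent.Helper61.P3.StONC := by
  intro φ τ A c hG hA hGap
  obtain ⟨C₁, hC₁, h1⟩ := hPES φ τ A c hG hA hGap
  obtain ⟨C₂, hC₂, h2⟩ := hLZB φ τ A c hG hA hGap
  obtain ⟨C₃, U₃, hC₃, h3⟩ := hBAD φ τ A c hG hA hGap
  obtain ⟨C₄, hC₄, h4⟩ := hWIG φ τ A c hG hA hGap
  obtain ⟨U₅, hU₅, h5⟩ := hWLI φ τ A hG hA hGap
  obtain ⟨L, hLdef⟩ : ∃ L : ℝ, L = (2 : ℝ) ^ 200 := ⟨_, rfl⟩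
  have hL1 : 1 ≤ L := by
    rw [hLdef]
    exact one_le_pow₀ (by norm_num)
  have hL2 : 48 / L ≤ (1 / 2 : ℝ) ^ 175 := by
    rw [hLdef]
    norm_num
  obtain ⟨N₀, hN₀⟩ := num4 (128000 * L * C₂)
  have hLC : 0 ≤ L * C₄ * C₂ := by positivity
  refine ⟨C₂ + 512 * (L * C₄ * C₂) + 8 * C₁ + C₃, U₃ + U₅ + N₀ + 1000, by linarith, by omega, ?_⟩
  intro u ρ m Λ g G hu hρ hm hΛ1 hΛ2 hg hg1 hGL
  set C : ℝ := C₂ + 512 * (L * C₄ * C₂) + 8 * C₁ + C₃ with hC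
  have hu2 : 2 ≤ u := by omega
  have hΛ0 : 0 < Λ := lt_of_lt_of_le (by positivity) hΛ1
  have hm0 : 0 < m := lt_of_lt_of_le (by positivity) hm
  have hη := et_pos ρ
  set η : ℝ := et ρ with hηd
  set D₀ : ℝ := C₂ * Λ / η ^ 2 with hD₀
  have hD₀0 : 0 < D₀ := by positivity
  set D₁ : ℝ := L * D₀ with hD₁
  have hD₁0 : 0 < D₁ := by positivity
  obtain ⟨hDm, hm2⟩ := num5 L C₂ Λ m u ρ hL1 hC₂ hΛ0 hΛ2 hρ (hN₀ u (by omega)) hm
  set n : ℕ := u / 10 with hn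
  set e : ℕ := n / 2 with he
  have hn100 : 100 ≤ n := by omega
  have he1 : 1 ≤ e := by omega
  have hen : e ≤ n := by omega
  -- the three sets
  set Ak : ℤ → Set Pl := fun k => {x | m / 2 ≤ ((NP c φ τ u η k g x).ncard : ℝ)} with hAk
  set Bk : ℤ → Set Pl := fun k => {x | e ≤ {i : ℕ | i < u / 10 ∧ TD c φ τ u (qw u i) η D₀ k g x ∧
          ¬ GW c φ τ u (qw u i) η D₁ k g x}.ncard} with hBk
  set Xk : ℕ → ℤ → Set Pl := fun i k => {x | m / 2 ≤ ((HP c φ τ u η k g x).ncard : ℝ) ∧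
    GW c φ τ u (qw u i) η D₁ k g x} with hXk
  set Yk : ℤ → Set Pl := fun k => {x | x ∈ G ∧ m / 2 ≤ ((HP c φ τ u η k g x).ncard : ℝ) ∧
    {i : ℕ | i < u / 10 ∧ TD c φ τ u (qw u i) η D₀ k g x ∧
          ¬ GW c φ τ u (qw u i) η D₁ k g x}.ncard < e} with hYk
  have hsub : ∀ k : ℤ, {x | x ∈ G ∧ m ≤ ((Hh c φ τ u ρ k g x).ncard : ℝ)} ⊆
      Ak k ∪ (Bk k ∪ Yk k) := by
    intro k x hx
    have hc := count1 c φ τ u ρ k g x
    have hc' : ((Hh c φ τ u ρ k g x).ncard : ℝ) ≤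
      ((NP c φ τ u η k g x).ncard : ℝ) + ((HP c φ τ u η k g x).ncard : ℝ) := by exact_mod_cast hc
    by_cases hNP : m / 2 ≤ ((NP c φ τ u η k g x).ncard : ℝ)
    · exact Or.inl hNP
    · right
      have hHP : m / 2 ≤ ((HP c φ τ u η k g x).ncard : ℝ) := by
        have := hx.2
        push Not at hNP
        linarith
      by_cases hB : e ≤ {i : ℕ | i < u / 10 ∧ TD c φ τ u (qw u i) η D₀ k g x ∧
          ¬ GW c φ τ u (qw u i) η D₁ k g x}.ncard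
      · exact Or.inl hB
      · exact Or.inr ⟨hx.1, hHP, not_le.1 hB⟩
  -- first part
  have hA' : ∑' k : ℤ, volume (Ak k) ≤
      ENNReal.ofReal (8 * C₁ * (2 : ℝ) ^ (-((u : ℝ) / 20))) * ∫⁻ x, ‖g x‖ₑ ^ 2 := by
    refine (h1 u η (m / 2) g hu2 hη (by positivity) hg).trans ?_
    exact mul_le_mul_left (ENNReal.ofReal_le_ofReal (num2 C₁ m u ρ hC₁ hρ hm)) _
  -- second part
  have hB' : ∑' k : ℤ, volume (Bk k) ≤
      ENNReal.ofReal (C₃ * (2 : ℝ) ^ (-((u : ℝ) / 20))) * ∫⁻ x, ‖g x‖ₑ ^ 2 := by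
    refine (h3 u u e η D₀ D₁ g (by omega) hu2 he1 hη hD₀0.le hD₁0 hg).trans ?_
    refine mul_le_mul_left (ENNReal.ofReal_le_ofReal ?_) _
    have hq : 48 * D₀ / D₁ = 48 / L := by
      rw [hD₁]
      field_simp
    rw [hq]
    refine num3 C₃ D₁ η (48 / L) u e hC₃ hη hD₁0 ?_ (by positivity) hL2 (by omega)
    refine hΛ1.trans ?_
    have hz : D₁ * η ^ 2 = L * C₂ * Λ := by
      rw [hD₁, hD₀]
      field_simp
    rw [hz]
    have : 1 ≤ L * C₂ := by nlinarith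
    nlinarith
  -- third part
  have hY' : ∀ k : ℤ, volume (Yk k) ≤
      ENNReal.ofReal (1 / ((n - e + 1 : ℕ) : ℝ)) * ∑ i ∈ Finset.range n, volume (Xk i k) := by
    intro k
    refine hAVE n (n - e + 1) (fun i => Xk i k) (Yk k) (by omega) ?_
    intro x hx
    have hTD : ∀ i < n, TD c φ τ u (qw u i) η D₀ k g x := by
      intro i _
      have hl : Loc C₂ Λ g x := loc_mono (by rw [hC]; linarith) (hGL x hx.1)
      have := (h2 u (32 * qw u i) k Λ g x hu2 hΛ0.le hg hg1 hl).2 η hη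
      unfold TD
      push_cast at this
      exact this
    have hcnt := count2 n e (fun i => GW c φ τ u (qw u i) η D₁ k g x)
      (fun i => TD c φ τ u (qw u i) η D₀ k g x) hTD hx.2.2 hen
    refine hcnt.trans (Set.ncard_le_ncard ?_ (fin_sub _ _))
    intro i hi
    exact ⟨hi.1, hx.2.1, hi.2⟩
  set Q : ℝ≥0∞ := BQ0 τ u g + EX τ u 1 g with hQ
  have hX' : ∀ i < n, ∑' k : ℤ, volume (Xk i k) ≤
      ENNReal.ofReal (16 * (C₄ * D₁ / (m ^ 3 * η ^ 2))) * Q := by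
    intro i hi
    obtain ⟨w1, w2, w3, w4⟩ := h5 u i (by omega) (by omega)
    have hR : ∀ k : ℤ, ∀ x ∈ Xk i k,
        m / 2 ≤ ((Hw c φ τ u (32 * qw u i) (η / 2) k g x).ncard : ℝ) ∧
        Dens (Ez c φ τ u (32 * qw u i) η k g) (2 ^ u) x
          (2 * (2 : ℝ) ^ (k + 20 * ((qw u i : ℕ) : ℤ))) D₁ ∧
        Dens (Ez c φ τ u (32 * qw u i) η k g) (2 ^ u) x
          (5 * (2 : ℝ) ^ (k + 24 * ((qw u i : ℕ) : ℤ)) / 2) D₁ := by
      intro k x hx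
      refine ⟨hx.1.trans ?_, hx.2.1, hx.2.2.1⟩
      have : (HP c φ τ u η k g x).ncard ≤ (Hw c φ τ u (32 * qw u i) (η / 2) k g x).ncard := by
        refine Set.ncard_le_ncard ?_ (fin_sub _ _)
        intro j hj
        exact ⟨hj.1, hj.2 _ w1⟩
      exact_mod_cast this
    have hη3 : (2 : ℝ) ^ (-((qw u i : ℕ) : ℤ)) ≤ η := by
      rw [hηd]
      unfold et
      refine zpow_le_zpow_right₀ (by norm_num) ?_
      have : ρ + 1 ≤ qw u i := by omega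
      have : ((ρ + 1 : ℕ) : ℤ) ≤ ((qw u i : ℕ) : ℤ) := by exact_mod_cast this
      push_cast at this
      linarith
    have hnn : ∀ j < 2 ^ u, 200 * (nn τ u (sl τ u j) (qw u i) : ℝ) ≤ m / 2 := by
      intro j _
      have := w4 u (sl τ u j) m le_rfl (by omega) hm
      linarith
    have hw := h4 u (qw u i) 1 η D₁ (m / 2) g (fun k => Xk i k) hu2 (by omega) le_rfl (by omega)
      hη3 (et_le ρ) hg hg1 hm2 hD₁0 hDm hnn hR
    refine hw.trans ?_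
    have e1 : C₄ * D₁ / ((m / 2) ^ 3 * η ^ 2) = 8 * (C₄ * D₁ / (m ^ 3 * η ^ 2)) := by
      field_simp
      norm_num
    rw [e1]
    have e2 : ENNReal.ofReal ((2 : ℝ) ^ (1 : ℕ)) * BQ0 τ u g + EX τ u 1 g ≤
        ENNReal.ofReal 2 * Q := by
      rw [hQ, mul_add, pow_one]
      refine add_le_add le_rfl ?_
      calc EX τ u 1 g = 1 * EX τ u 1 g := (one_mul _).symm
        _ ≤ ENNReal.ofReal 2 * EX τ u 1 g := by
            refine mul_le_mul_left ?_ _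
            rw [← ENNReal.ofReal_one]
            exact ENNReal.ofReal_le_ofReal (by norm_num)
    calc _ ≤ ENNReal.ofReal (8 * (C₄ * D₁ / (m ^ 3 * η ^ 2))) * (ENNReal.ofReal 2 * Q) :=
          mul_le_mul_right e2 _
      _ = ENNReal.ofReal (16 * (C₄ * D₁ / (m ^ 3 * η ^ 2))) * Q := by
          rw [← mul_assoc, ← ENNReal.ofReal_mul (by positivity)]
          congr 2
          ring
  have hY : ∑' k : ℤ, volume (Yk k) ≤
      ENNReal.ofReal (C * Λ * (16 : ℝ) ^ ρ / m ^ 3) * Q := by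
    refine (ENNReal.tsum_le_tsum hY').trans ?_
    rw [ENNReal.tsum_mul_left]
    have e0 : ∑' k : ℤ, ∑ i ∈ Finset.range n, volume (Xk i k) =
        ∑ i ∈ Finset.range n, ∑' k : ℤ, volume (Xk i k) :=
      Summable.tsum_finsetSum (fun _ _ => ENNReal.summable)
    rw [e0]
    have e1 : ∑ i ∈ Finset.range n, ∑' k : ℤ, volume (Xk i k) ≤
        (n : ℝ≥0∞) * (ENNReal.ofReal (16 * (C₄ * D₁ / (m ^ 3 * η ^ 2))) * Q) := by
      refine (Finset.sum_le_sum (fun i hi => hX' i (Finset.mem_range.1 hi))).trans ?_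
      rw [Finset.sum_const, Finset.card_range, nsmul_eq_mul]
    refine (mul_le_mul_right e1 _).trans ?_
    rw [← mul_assoc, ← mul_assoc, ← ENNReal.ofReal_natCast n,
      ← ENNReal.ofReal_mul (by positivity), ← ENNReal.ofReal_mul (by positivity)]
    refine mul_le_mul_left (ENNReal.ofReal_le_ofReal ?_) _
    have hne : (n : ℝ) ≤ 2 * ((n - e + 1 : ℕ) : ℝ) := by
      have : n ≤ 2 * (n - e + 1) := by omega
      exact_mod_cast this
    have hpos : (0 : ℝ) < ((n - e + 1 : ℕ) : ℝ) := by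
      have : 0 < n - e + 1 := by omega
      exact_mod_cast this
    have e2 : 1 / ((n - e + 1 : ℕ) : ℝ) * n ≤ 2 := by
      rw [one_div, inv_mul_le_iff₀ hpos]
      linarith
    have e3 : 0 ≤ 16 * (C₄ * D₁ / (m ^ 3 * η ^ 2)) := by positivity
    refine (mul_le_mul_of_nonneg_right e2 e3).trans ?_
    have e4 : η ^ 2 = 1 / (4 * (4 : ℝ) ^ ρ) := et_sq ρ
    have e5 : 2 * (16 * (C₄ * D₁ / (m ^ 3 * η ^ 2))) =
        512 * (L * C₄ * C₂) * Λ * (16 : ℝ) ^ ρ / m ^ 3 := by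
      rw [hD₁, hD₀, e4, show (16 : ℝ) = 4 * 4 by norm_num, mul_pow]
      field_simp
      ring
    rw [e5]
    have e6 : 512 * (L * C₄ * C₂) ≤ C := by
      rw [hC]
      linarith
    gcongr
  -- total
  have hT : ∑' k : ℤ, volume {x | x ∈ G ∧ m ≤ ((Hh c φ τ u ρ k g x).ncard : ℝ)} ≤
      ∑' k : ℤ, volume (Ak k) + (∑' k : ℤ, volume (Bk k) + ∑' k : ℤ, volume (Yk k)) := by
    rw [← ENNReal.tsum_add, ← ENNReal.tsum_add]
    refine ENNReal.tsum_le_tsum (fun k => ?_)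
    refine (measure_mono (hsub k)).trans ?_
    refine (measure_union_le _ _).trans ?_
    exact add_le_add le_rfl (measure_union_le _ _)
  refine hT.trans ?_
  refine (add_le_add hA' (add_le_add hB' hY)).trans ?_
  rw [← add_assoc, ← add_mul, ← ENNReal.ofReal_add (by positivity) (by positivity), add_comm]
  refine add_le_add le_rfl ?_
  refine mul_le_mul_left (ENNReal.ofReal_le_ofReal ?_) _
  rw [← add_mul]
  refine mul_le_mul_of_nonneg_right ?_ (by positivity)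
  rw [hC]
  linarith

end Pool.Agent.Helper76.P3
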