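import Pool.Agent.Helper61.P3.St2

/-!
# Project P3 (MP_cb927e_an): module SHM (differences of two scales)
-/

set_option autoImplicit false

open MeasureTheory Set Filter Topology
open scoped ENNReal RealInnerProductSpace

namespace Pool.Agent.Helper76.P3

open Pool.Agent.Helper61.P3
open Pool.Agent.Helper68.LM (Pl BB Bd Av HL ft fm DQ)
open Pool.Agent.Helper20.RG
open Pool.Agent.Helper20.EQ
open Pool.Agent.Helper68.EP (elt GapP)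

/-- one function, differences of two scales -/
private theorem shm_one (hOCT : StOCT) (F : ℤ → ℝ) (r B : ℝ) (V : ℕ) (hr : 0 < r) (hB : 1 ≤ B)
    (h1 : ∀ k, |F k| ≤ 1) (h2 : ∀ k : ℤ, |1 - F k| ≤ B * ((2 : ℝ) ^ k * r))
    (h3 : ∀ k : ℤ, |F k| * ((2 : ℝ) ^ k * r) ≤ B) :
    ∑' k : ℤ, ENNReal.ofReal ((F k - F (k + (V : ℤ))) ^ 2) ≤
      ENNReal.ofReal (4 * B * ((V : ℝ) + 8)) := by
  have hB0 : 0 ≤ B := by linarith
  have hd : ∀ k : ℤ, |F k - F (k + (V : ℤ))| ≤ |F k| + |F (k + (V : ℤ))| := fun k => abs_sub _ _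
  have hd2 : ∀ k : ℤ, |F k - F (k + (V : ℤ))| ≤ 2 := fun k => by
    have := hd k
    have := h1 k
    have := h1 (k + (V : ℤ))
    linarith
  have hsq : ∀ k : ℤ, (F k - F (k + (V : ℤ))) ^ 2 ≤ 2 * |F k - F (k + (V : ℤ))| := fun k => by
    rw [← sq_abs]
    nlinarith [abs_nonneg (F k - F (k + (V : ℤ))), hd2 k]
  have hV1 : (1 : ℝ) ≤ (2 : ℝ) ^ (V : ℕ) := one_le_pow₀ (by norm_num)
  have hkV : ∀ k : ℤ, (2 : ℝ) ^ (k + (V : ℤ)) = (2 : ℝ) ^ k * (2 : ℝ) ^ V := fun k => by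
    rw [zpow_add₀ (by norm_num), zpow_natCast]
  have h := hOCT (fun k => ENNReal.ofReal ((F k - F (k + (V : ℤ))) ^ 2)) r (4 * B) (-(V : ℤ)) 0 hr
    (by positivity) (by simp) ?_ ?_ ?_
  · refine h.trans (le_of_eq ?_)
    congr 1
    push_cast
    ring
  · intro k
    refine ENNReal.ofReal_le_ofReal ?_
    have := hsq k
    have := hd2 k
    linarith
  · intro k _
    refine ENNReal.ofReal_le_ofReal ?_
    have hk0 : 0 < (2 : ℝ) ^ k * r := by positivity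
    have e : |F k - F (k + (V : ℤ))| ≤ |1 - F k| + |1 - F (k + (V : ℤ))| := by
      have e' : F k - F (k + (V : ℤ)) = (1 - F (k + (V : ℤ))) - (1 - F k) := by ring
      rw [e']
      have := abs_sub (1 - F (k + (V : ℤ))) (1 - F k)
      linarith
    have e1 := h2 k
    have e2 := h2 (k + (V : ℤ))
    rw [hkV k] at e2
    have e3 : (2 : ℝ) ^ k * r ≤ (2 : ℝ) ^ k * (2 : ℝ) ^ V * r := by
      have := mul_le_mul_of_nonneg_left hV1 hk0.le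
      nlinarith
    have e4 : B * ((2 : ℝ) ^ k * r) ≤ B * ((2 : ℝ) ^ k * (2 : ℝ) ^ V * r) :=
      mul_le_mul_of_nonneg_left e3 hB0
    have e5 : 4 * B * ((2 : ℝ) ^ k * r / (2 : ℝ) ^ (-(V : ℤ))) =
        4 * (B * ((2 : ℝ) ^ k * (2 : ℝ) ^ V * r)) := by
      rw [zpow_neg, zpow_natCast]
      field_simp
    rw [e5]
    have := hsq k
    linarith
  · intro k hk
    refine ENNReal.ofReal_le_ofReal ?_
    rw [zpow_zero] at hk ⊢
    have hk0 : 0 < (2 : ℝ) ^ k * r := by positivity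
    have e1 : |F k| ≤ B / ((2 : ℝ) ^ k * r) := by
      rw [le_div_iff₀ hk0]
      exact h3 k
    have e2 : |F (k + (V : ℤ))| ≤ B / ((2 : ℝ) ^ k * r) := by
      rw [le_div_iff₀ hk0]
      have e3 := h3 (k + (V : ℤ))
      rw [hkV k] at e3
      refine le_trans ?_ e3
      refine mul_le_mul_of_nonneg_left ?_ (abs_nonneg _)
      have := mul_le_mul_of_nonneg_left hV1 hk0.le
      nlinarith
    have e6 : 4 * B * (1 / ((2 : ℝ) ^ k * r)) = 4 * (B / ((2 : ℝ) ^ k * r)) := by ring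
    rw [e6]
    have := hsq k
    have := hd k
    linarith

/-- the box multiplier -/
private noncomputable def kap (m : ℕ) (ζ : Pl) : ℝ :=
  Real.sinc (2 * Real.pi * (2 : ℝ) ^ (-(m : ℤ)) * ζ 0) *
    Real.sinc (2 * Real.pi * (2 : ℝ) ^ (-(m : ℤ)) * ζ 1)

private theorem pi_le : Real.pi ≤ 13 / 4 := by
  have := Real.pi_lt_d2
  linarith

private theorem kap_bds (hPT : StPT) (hSINC : StSINC) (m : ℕ) (ζ : Pl) :
    |kap m ζ| ≤ 1 ∧ |1 - kap m ζ| ≤ 13 * ((2 : ℝ) ^ (-(m : ℤ)) * ‖ζ‖) ∧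
      |kap m ζ| * ((2 : ℝ) ^ (-(m : ℤ)) * ‖ζ‖) ≤ 13 := by
  obtain ⟨hz0, hz1, hz2, -⟩ := hPT.2.2.1 ζ
  set q : ℝ := (2 : ℝ) ^ (-(m : ℤ)) with hq
  have hq0 : 0 < q := by positivity
  have hpi := Real.pi_pos
  have hpi3 := Real.pi_gt_three
  have hpi4 := pi_le
  obtain ⟨a1, a2, a3⟩ := hSINC.1 (2 * Real.pi * q * ζ 0)
  obtain ⟨b1, b2, b3⟩ := hSINC.1 (2 * Real.pi * q * ζ 1)
  have hx : |2 * Real.pi * q * ζ 0| = 2 * Real.pi * (q * |ζ 0|) := by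
    rw [abs_mul, abs_of_pos (by positivity : 0 < 2 * Real.pi * q)]
    ring
  have hy : |2 * Real.pi * q * ζ 1| = 2 * Real.pi * (q * |ζ 1|) := by
    rw [abs_mul, abs_of_pos (by positivity : 0 < 2 * Real.pi * q)]
    ring
  have hk : kap m ζ = Real.sinc (2 * Real.pi * q * ζ 0) * Real.sinc (2 * Real.pi * q * ζ 1) := rfl
  set X : ℝ := Real.sinc (2 * Real.pi * q * ζ 0) with hX
  set Y' : ℝ := Real.sinc (2 * Real.pi * q * ζ 1) with hY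
  rw [hk]
  have hn : 0 ≤ ‖ζ‖ := norm_nonneg ζ
  have hXn := abs_nonneg X
  have hYn := abs_nonneg Y'
  refine ⟨?_, ?_, ?_⟩
  · rw [abs_mul]
    calc |X| * |Y'| ≤ 1 * 1 := mul_le_mul a1 b1 hYn zero_le_one
      _ = 1 := one_mul 1
  · have e : 1 - X * Y' = (1 - X) + X * (1 - Y') := by ring
    rw [e]
    refine (abs_add_le _ _).trans ?_
    rw [abs_mul]
    have c1 : |X| * |1 - Y'| ≤ 1 * |1 - Y'| := mul_le_mul_of_nonneg_right a1 (abs_nonneg _)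
    rw [hx] at a3
    rw [hy] at b3
    have c2 : q * |ζ 0| ≤ q * ‖ζ‖ := mul_le_mul_of_nonneg_left hz0 hq0.le
    have c3 : q * |ζ 1| ≤ q * ‖ζ‖ := mul_le_mul_of_nonneg_left hz1 hq0.le
    have c4 : 0 ≤ q * ‖ζ‖ := by positivity
    have c5 : 2 * Real.pi * (q * |ζ 0|) ≤ 2 * Real.pi * (q * ‖ζ‖) :=
      mul_le_mul_of_nonneg_left c2 (by positivity)
    have c6 : 2 * Real.pi * (q * |ζ 1|) ≤ 2 * Real.pi * (q * ‖ζ‖) :=
      mul_le_mul_of_nonneg_left c3 (by positivity)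
    nlinarith
  · rw [abs_mul]
    have e1 : |X| * (q * |ζ 0|) ≤ 1 := by
      have := a2
      rw [abs_mul, hx] at this
      have h5 : 0 ≤ |X| * (q * |ζ 0|) := by positivity
      nlinarith
    have e2 : |Y'| * (q * |ζ 1|) ≤ 1 := by
      have := b2
      rw [abs_mul, hy] at this
      have h5 : 0 ≤ |Y'| * (q * |ζ 1|) := by positivity
      nlinarith
    have e3 : q * ‖ζ‖ ≤ q * |ζ 0| + q * |ζ 1| := by
      have := mul_le_mul_of_nonneg_left hz2 hq0.le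
      linarith
    have e4 : |X| * |Y'| * (q * ‖ζ‖) ≤ |X| * |Y'| * (q * |ζ 0| + q * |ζ 1|) :=
      mul_le_mul_of_nonneg_left e3 (by positivity)
    have e5 : |X| * |Y'| * (q * |ζ 0| + q * |ζ 1|) =
        |Y'| * (|X| * (q * |ζ 0|)) + |X| * (|Y'| * (q * |ζ 1|)) := by ring
    have e6 : |Y'| * (|X| * (q * |ζ 0|)) ≤ 1 * 1 := mul_le_mul b1 e1 (by positivity) zero_le_one
    have e7 : |X| * (|Y'| * (q * |ζ 1|)) ≤ 1 * 1 := mul_le_mul a1 e2 (by positivity) zero_le_one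
    linarith

private theorem snc_bds (hSINC : StSINC) (x : ℝ) :
    |Real.sinc (Real.pi * x)| ≤ 1 ∧ |1 - Real.sinc (Real.pi * x)| ≤ 13 * |x| ∧
      |Real.sinc (Real.pi * x)| * |x| ≤ 13 := by
  obtain ⟨a1, a2, a3⟩ := hSINC.1 (Real.pi * x)
  have hpi := Real.pi_pos
  have hpi3 := Real.pi_gt_three
  have hpi4 := pi_le
  have hx : |Real.pi * x| = Real.pi * |x| := by
    rw [abs_mul, abs_of_pos hpi]
  have hx0 := abs_nonneg x
  refine ⟨a1, ?_, ?_⟩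
  · rw [hx] at a3
    nlinarith
  · rw [abs_mul, hx] at a2
    have h5 : 0 ≤ |Real.sinc (Real.pi * x)| * |x| := by positivity
    nlinarith

/-- the multiplier is real -/
private theorem zh_eq (s : ℝ) (m m' : ℕ) (l : ℝ) (ζ : Pl) :
    Zh s 0 m m' l ζ =
      ((Real.sinc (Real.pi * l * ⟪E s, ζ⟫) * (kap m ζ - kap m' ζ) : ℝ) : ℂ) := by
  unfold Zh Yh kap
  rw [inner_zero_left]
  simp only [mul_zero, Complex.ofReal_zero, zero_mul, Complex.exp_zero, one_mul]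
  push_cast
  ring

private theorem six {a b c a' b' c' : ℝ} (hc : |c| ≤ 1) (ha' : |a'| ≤ 1) (hb' : |b'| ≤ 1) :
    (c * (a - b) - c' * (a' - b')) ^ 2 ≤
      12 * ((a - a') ^ 2 + (b - b') ^ 2 + (c - c') ^ 2) := by
  have e : c * (a - b) - c' * (a' - b') = c * (a - a') - c * (b - b') + (c - c') * (a' - b') := by
    ring
  have h1 : c ^ 2 ≤ 1 := by
    rw [← sq_abs]
    exact pow_le_one₀ (abs_nonneg c) hc
  have h2 : (a' - b') ^ 2 ≤ 4 := by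
    rw [← sq_abs]
    have h3 : |a' - b'| ≤ 2 := (abs_sub a' b').trans (by linarith)
    nlinarith [abs_nonneg (a' - b')]
  rw [e]
  have h4 : (c * (a - a') - c * (b - b') + (c - c') * (a' - b')) ^ 2 ≤
      3 * ((c * (a - a')) ^ 2 + (c * (b - b')) ^ 2 + ((c - c') * (a' - b')) ^ 2) := by
    nlinarith [sq_nonneg (c * (a - a') + c * (b - b')),
      sq_nonneg (c * (a - a') - (c - c') * (a' - b')),
      sq_nonneg (c * (b - b') + (c - c') * (a' - b'))]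
  refine h4.trans ?_
  have h5 : (c * (a - a')) ^ 2 ≤ (a - a') ^ 2 := by
    rw [mul_pow]
    exact mul_le_of_le_one_left (sq_nonneg _) h1
  have h6 : (c * (b - b')) ^ 2 ≤ (b - b') ^ 2 := by
    rw [mul_pow]
    exact mul_le_of_le_one_left (sq_nonneg _) h1
  have h7 : ((c - c') * (a' - b')) ^ 2 ≤ (c - c') ^ 2 * 4 := by
    rw [mul_pow]
    exact mul_le_mul_of_nonneg_left h2 (sq_nonneg _)
  nlinarith [sq_nonneg (a - a'), sq_nonneg (b - b'), sq_nonneg (c - c')]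

private theorem enorm_sq_ofReal (x : ℝ) : ‖((x : ℝ) : ℂ)‖ₑ ^ 2 = ENNReal.ofReal (x ^ 2) := by
  rw [← ofReal_norm, ← ENNReal.ofReal_pow (norm_nonneg _), Complex.norm_real,
    Real.norm_eq_abs, sq_abs]

/-- near chords -/
private theorem shm_near (hPT : StPT) (hSINC : StSINC) (hOCT : StOCT) (s : ℝ) (m m' V w : ℕ)
    (ξ : Pl) (hξ : ξ ≠ 0) :
    ∑' k : ℤ, ‖Zh s 0 m m' ((2 : ℝ) ^ w) ((2 : ℝ) ^ k • ξ) -
      Zh s 0 m m' ((2 : ℝ) ^ w) ((2 : ℝ) ^ (k + (V : ℤ)) • ξ)‖ₑ ^ 2 ≤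
      ENNReal.ofReal (15000 * ((V : ℝ) + 1)) := by
  have hr : 0 < ‖ξ‖ := norm_pos_iff.2 hξ
  have hnorm : ∀ k : ℤ, ‖(2 : ℝ) ^ k • ξ‖ = (2 : ℝ) ^ k * ‖ξ‖ := by
    intro k
    rw [norm_smul, Real.norm_eq_abs, abs_of_pos (by positivity)]
  -- the box functions
  have hkap : ∀ n : ℕ, ∑' k : ℤ, ENNReal.ofReal
      ((kap n ((2 : ℝ) ^ k • ξ) - kap n ((2 : ℝ) ^ (k + (V : ℤ)) • ξ)) ^ 2) ≤
      ENNReal.ofReal (4 * 13 * ((V : ℝ) + 8)) := by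
    intro n
    refine shm_one hOCT (fun k => kap n ((2 : ℝ) ^ k • ξ)) ((2 : ℝ) ^ (-(n : ℤ)) * ‖ξ‖) 13 V
      (by positivity) (by norm_num) ?_ ?_ ?_
    · intro k
      exact (kap_bds hPT hSINC n _).1
    · intro k
      have := (kap_bds hPT hSINC n ((2 : ℝ) ^ k • ξ)).2.1
      rw [hnorm k] at this
      refine this.trans (le_of_eq ?_)
      ring
    · intro k
      have := (kap_bds hPT hSINC n ((2 : ℝ) ^ k • ξ)).2.2
      rw [hnorm k] at this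
      refine le_trans (le_of_eq ?_) this
      ring
  -- the segment function
  have hseg : ∑' k : ℤ, ENNReal.ofReal
      ((Real.sinc (Real.pi * (2 : ℝ) ^ w * ⟪E s, (2 : ℝ) ^ k • ξ⟫) -
        Real.sinc (Real.pi * (2 : ℝ) ^ w * ⟪E s, (2 : ℝ) ^ (k + (V : ℤ)) • ξ⟫)) ^ 2) ≤
      ENNReal.ofReal (4 * 13 * ((V : ℝ) + 8)) := by
    have hre : ∀ k : ℤ, Real.pi * (2 : ℝ) ^ w * ⟪E s, (2 : ℝ) ^ k • ξ⟫ =
        Real.pi * ((2 : ℝ) ^ k * ((2 : ℝ) ^ w * ⟪E s, ξ⟫)) := by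
      intro k
      rw [real_inner_smul_right]
      ring
    by_cases hb : ⟪E s, ξ⟫ = 0
    · have h0 : ∀ k : ℤ, ENNReal.ofReal
          ((Real.sinc (Real.pi * (2 : ℝ) ^ w * ⟪E s, (2 : ℝ) ^ k • ξ⟫) -
            Real.sinc (Real.pi * (2 : ℝ) ^ w * ⟪E s, (2 : ℝ) ^ (k + (V : ℤ)) • ξ⟫)) ^ 2) = 0 := by
        intro k
        rw [hre k, hre (k + (V : ℤ)), hb]
        simp
      rw [tsum_congr h0, tsum_zero]
      exact zero_le
    · have hb0 : 0 < |⟪E s, ξ⟫| := abs_pos.2 hb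
      have hab : ∀ k : ℤ, |(2 : ℝ) ^ k * ((2 : ℝ) ^ w * ⟪E s, ξ⟫)| =
          (2 : ℝ) ^ k * ((2 : ℝ) ^ w * |⟪E s, ξ⟫|) := by
        intro k
        rw [abs_mul, abs_mul, abs_of_pos (by positivity : (0 : ℝ) < (2 : ℝ) ^ k),
          abs_of_pos (by positivity : (0 : ℝ) < (2 : ℝ) ^ w)]
      refine shm_one hOCT (fun k => Real.sinc (Real.pi * (2 : ℝ) ^ w * ⟪E s, (2 : ℝ) ^ k • ξ⟫))
        ((2 : ℝ) ^ w * |⟪E s, ξ⟫|) 13 V (by positivity) (by norm_num) ?_ ?_ ?_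
      · intro k
        exact (hSINC.1 _).1
      · intro k
        show |1 - Real.sinc (Real.pi * (2 : ℝ) ^ w * ⟪E s, (2 : ℝ) ^ k • ξ⟫)| ≤ _
        rw [hre k, ← hab k]
        exact (snc_bds hSINC _).2.1
      · intro k
        show |Real.sinc (Real.pi * (2 : ℝ) ^ w * ⟪E s, (2 : ℝ) ^ k • ξ⟫)| * _ ≤ _
        rw [hre k, ← hab k]
        exact (snc_bds hSINC _).2.2
  -- pointwise bound
  have hpt : ∀ k : ℤ, ‖Zh s 0 m m' ((2 : ℝ) ^ w) ((2 : ℝ) ^ k • ξ) -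
      Zh s 0 m m' ((2 : ℝ) ^ w) ((2 : ℝ) ^ (k + (V : ℤ)) • ξ)‖ₑ ^ 2 ≤
      ENNReal.ofReal 12 *
      ((ENNReal.ofReal ((kap m ((2 : ℝ) ^ k • ξ) - kap m ((2 : ℝ) ^ (k + (V : ℤ)) • ξ)) ^ 2) +
        ENNReal.ofReal ((kap m' ((2 : ℝ) ^ k • ξ) - kap m' ((2 : ℝ) ^ (k + (V : ℤ)) • ξ)) ^ 2)) +
        ENNReal.ofReal ((Real.sinc (Real.pi * (2 : ℝ) ^ w * ⟪E s, (2 : ℝ) ^ k • ξ⟫) -
          Real.sinc (Real.pi * (2 : ℝ) ^ w * ⟪E s, (2 : ℝ) ^ (k + (V : ℤ)) • ξ⟫)) ^ 2)) := by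
    intro k
    rw [zh_eq, zh_eq, ← Complex.ofReal_sub, enorm_sq_ofReal,
      ← ENNReal.ofReal_add (by positivity) (by positivity),
      ← ENNReal.ofReal_add (by positivity) (by positivity),
      ← ENNReal.ofReal_mul (by norm_num)]
    refine ENNReal.ofReal_le_ofReal ?_
    exact six (hSINC.1 _).1 (kap_bds hPT hSINC m _).1 (kap_bds hPT hSINC m' _).1
  refine (ENNReal.tsum_le_tsum hpt).trans ?_
  rw [ENNReal.tsum_mul_left, ENNReal.tsum_add, ENNReal.tsum_add]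
  have hVn : (0 : ℝ) ≤ (V : ℝ) := Nat.cast_nonneg V
  refine (mul_le_mul_right (add_le_add (add_le_add (hkap m) (hkap m')) hseg) _).trans ?_
  rw [← ENNReal.ofReal_add (by positivity) (by positivity),
    ← ENNReal.ofReal_add (by positivity) (by positivity),
    ← ENNReal.ofReal_mul (by norm_num)]
  refine ENNReal.ofReal_le_ofReal ?_
  linarith

/-- far chords: the inner product is large -/
private theorem shm_far (hPT : StPT) (s : ℝ) (hs : |s| ≤ 1) (T : ℕ) (ξ : Pl) (hξ : ξ ≠ 0)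
    (h : ¬ |s - th ξ| ≤ (2 : ℝ) ^ (-(T : ℤ))) :
    (2 : ℝ) ^ (-(T : ℤ)) * ‖ξ‖ / 4 ≤ |⟪E s, ξ⟫| := by
  have hr : 0 < ‖ξ‖ := norm_pos_iff.2 hξ
  have e0 : (E s) 0 = 1 := (hPT.1 1 s).1
  have e1 : (E s) 1 = s := (hPT.1 1 s).2
  have hin : ⟪E s, ξ⟫ = ξ 0 + s * ξ 1 := by rw [hPT.2.2.2.1, e0, e1, one_mul]
  have hT : (2 : ℝ) ^ (-(T : ℤ)) ≤ 1 := by
    rw [zpow_neg, zpow_natCast]
    exact inv_le_one_of_one_le₀ (one_le_pow₀ (by norm_num))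
  have hT0 : (0 : ℝ) < (2 : ℝ) ^ (-(T : ℤ)) := by positivity
  push Not at h
  rw [hin]
  unfold th at h
  split_ifs at h with hc
  · have h1 : 0 < |ξ 1| := lt_of_lt_of_le (by positivity) hc
    have h1' : ξ 1 ≠ 0 := abs_pos.1 h1
    have e : ξ 0 + s * ξ 1 = ξ 1 * (s - -(ξ 0 / ξ 1)) := by field_simp; ring
    rw [e, abs_mul]
    calc (2 : ℝ) ^ (-(T : ℤ)) * ‖ξ‖ / 4 = (‖ξ‖ / 4) * (2 : ℝ) ^ (-(T : ℤ)) := by ring
      _ ≤ |ξ 1| * |s - -(ξ 0 / ξ 1)| := mul_le_mul hc h.le hT0.le (abs_nonneg _)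
  · push Not at hc
    have h2 := (hPT.2.2.1 ξ).2.2.1
    have h3 : |s * ξ 1| ≤ |ξ 1| := by
      rw [abs_mul]
      exact mul_le_of_le_one_left (abs_nonneg _) hs
    have h4 : |ξ 0| - |s * ξ 1| ≤ |ξ 0 + s * ξ 1| := by
      have := abs_sub_abs_le_abs_sub (ξ 0) (-(s * ξ 1))
      rw [abs_neg, sub_neg_eq_add] at this
      exact this
    have h5 : (2 : ℝ) ^ (-(T : ℤ)) * ‖ξ‖ ≤ ‖ξ‖ := mul_le_of_le_one_left hr.le hT
    linarith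

/-- the bounds of `Pso` -/
private theorem pso_bds (s : ℝ) (m m' : ℕ) (ξ : Pl) :
    0 ≤ Pso s m m' ξ ∧ Pso s m m' ξ ≤ 1 ∧ Pso s m m' ξ ≤ ‖ξ‖ ∧
      Pso s m m' ξ ≤ 1 / (1 + |⟪E s, ξ⟫|) := by
  have hr := norm_nonneg ξ
  set r := ‖ξ‖ with hrd
  set b := |⟪E s, ξ⟫| with hb
  have hb0 : 0 ≤ b := abs_nonneg _
  have h1 : 0 ≤ min 1 (r * (2 : ℝ) ^ (-(m' : ℤ))) := le_min zero_le_one (by positivity)
  have h2 : 0 ≤ min 1 ((2 : ℝ) ^ m / r) := le_min zero_le_one (by positivity)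
  have h3 : min 1 (r * (2 : ℝ) ^ (-(m' : ℤ))) ≤ 1 := min_le_left _ _
  have h4 : min 1 ((2 : ℝ) ^ m / r) ≤ 1 := min_le_left _ _
  have h5 : (2 : ℝ) ^ (-(m' : ℤ)) ≤ 1 := by
    rw [zpow_neg, zpow_natCast]
    exact inv_le_one_of_one_le₀ (one_le_pow₀ (by norm_num))
  have h6 : min 1 (r * (2 : ℝ) ^ (-(m' : ℤ))) ≤ r := by
    refine (min_le_right _ _).trans ?_
    exact mul_le_of_le_one_right hr h5
  have h7 : 0 ≤ 1 / (1 + b) := by positivity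
  have h8 : 1 / (1 + b) ≤ 1 := by
    rw [div_le_one (by positivity)]
    linarith
  have h9 : min 1 (r * (2 : ℝ) ^ (-(m' : ℤ))) * min 1 ((2 : ℝ) ^ m / r) ≤ 1 := by
    calc _ ≤ (1 : ℝ) * 1 := mul_le_mul h3 h4 h2 zero_le_one
      _ = _ := mul_one _
  have h10 : min 1 (r * (2 : ℝ) ^ (-(m' : ℤ))) * min 1 ((2 : ℝ) ^ m / r) ≤ r := by
    calc _ ≤ r * 1 := mul_le_mul h6 h4 h2 hr
      _ = _ := mul_one _
  have h11 := mul_nonneg h1 h2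
  unfold Pso
  refine ⟨mul_nonneg h11 h7, ?_, ?_, ?_⟩
  · calc _ ≤ (1 : ℝ) * 1 := mul_le_mul h9 h8 h7 zero_le_one
      _ = _ := mul_one _
  · calc _ ≤ r * 1 := mul_le_mul h10 h8 h7 hr
      _ = _ := mul_one _
  · calc _ ≤ (1 : ℝ) * (1 / (1 + b)) := mul_le_mul_of_nonneg_right h9 h7
      _ = _ := one_mul _

/-- the far part of the sum of `Pso` -/
private theorem pso_far (hPT : StPT) (hOCT : StOCT) (C₁ : ℝ) (hC₁ : 0 < C₁) (u : ℕ)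
    (s : ℕ → ℝ) (m m' : ℕ → ℕ) (hs : ∀ j < 2 ^ u, |s j| ≤ 1)
    (hP : ∀ ξ : Pl, ξ ≠ 0 → ∑ j ∈ Finset.range (2 ^ u), Pso (s j) (m j) (m' j) ξ ≤ C₁)
    (T : ℕ) (ξ : Pl) (hξ : ξ ≠ 0) :
    ∑' k : ℤ, ∑ j ∈ (Finset.range (2 ^ u)).filter
      (fun j => ¬ |s j - th ξ| ≤ (2 : ℝ) ^ (-(T : ℤ))),
      ENNReal.ofReal (Pso (s j) (m j) (m' j) ((2 : ℝ) ^ k • ξ)) ≤
      ENNReal.ofReal ((C₁ + 1) * ((T : ℝ) + 2 * u + 10)) := by
  have hr : 0 < ‖ξ‖ := norm_pos_iff.2 hξ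
  have hnorm : ∀ k : ℤ, ‖(2 : ℝ) ^ k • ξ‖ = (2 : ℝ) ^ k * ‖ξ‖ := by
    intro k
    rw [norm_smul, Real.norm_eq_abs, abs_of_pos (by positivity)]
  have hinn : ∀ (k : ℤ) (a : ℝ), |⟪E a, (2 : ℝ) ^ k • ξ⟫| = (2 : ℝ) ^ k * |⟪E a, ξ⟫| := by
    intro k a
    rw [real_inner_smul_right, abs_mul, abs_of_pos (by positivity : (0 : ℝ) < (2 : ℝ) ^ k)]
  set Fr : Finset ℕ := (Finset.range (2 ^ u)).filter
    (fun j => ¬ |s j - th ξ| ≤ (2 : ℝ) ^ (-(T : ℤ))) with hFr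
  have hcard : (Fr.card : ℝ) ≤ (2 : ℝ) ^ u := by
    have : Fr.card ≤ 2 ^ u := by
      rw [hFr]
      exact (Finset.card_filter_le _ _).trans (by simp)
    exact_mod_cast this
  have hsumr : ∀ k : ℤ, ∑ j ∈ Fr, ENNReal.ofReal (Pso (s j) (m j) (m' j) ((2 : ℝ) ^ k • ξ)) =
      ENNReal.ofReal (∑ j ∈ Fr, Pso (s j) (m j) (m' j) ((2 : ℝ) ^ k • ξ)) := by
    intro k
    rw [ENNReal.ofReal_sum_of_nonneg (fun j _ => (pso_bds _ _ _ _).1)]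
  have h := hOCT (fun k => ∑ j ∈ Fr, ENNReal.ofReal (Pso (s j) (m j) (m' j) ((2 : ℝ) ^ k • ξ)))
    ‖ξ‖ (C₁ + 1) (-(u : ℤ)) ((T : ℤ) + u + 2) hr (by positivity) (by omega) ?_ ?_ ?_
  · refine h.trans (ENNReal.ofReal_le_ofReal ?_)
    push_cast
    refine mul_le_mul_of_nonneg_left ?_ (by positivity)
    linarith
  · intro k
    rw [hsumr k]
    refine ENNReal.ofReal_le_ofReal ?_
    have hk : (2 : ℝ) ^ k • ξ ≠ 0 := smul_ne_zero (by positivity) hξ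
    have h1 := hP _ hk
    have h2 : ∑ j ∈ Fr, Pso (s j) (m j) (m' j) ((2 : ℝ) ^ k • ξ) ≤
        ∑ j ∈ Finset.range (2 ^ u), Pso (s j) (m j) (m' j) ((2 : ℝ) ^ k • ξ) := by
      refine Finset.sum_le_sum_of_subset_of_nonneg (Finset.filter_subset _ _) ?_
      intro j _ _
      exact (pso_bds _ _ _ _).1
    linarith
  · intro k _
    rw [hsumr k]
    refine ENNReal.ofReal_le_ofReal ?_
    have hk0 : (0 : ℝ) < (2 : ℝ) ^ k * ‖ξ‖ := by positivity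
    have h1 : ∑ j ∈ Fr, Pso (s j) (m j) (m' j) ((2 : ℝ) ^ k • ξ) ≤
        ∑ _j ∈ Fr, (2 : ℝ) ^ k * ‖ξ‖ := by
      refine Finset.sum_le_sum (fun j _ => ?_)
      have := (pso_bds (s j) (m j) (m' j) ((2 : ℝ) ^ k • ξ)).2.2.1
      rwa [hnorm k] at this
    rw [Finset.sum_const, nsmul_eq_mul] at h1
    calc _ ≤ (Fr.card : ℝ) * ((2 : ℝ) ^ k * ‖ξ‖) := h1
      _ ≤ (2 : ℝ) ^ u * ((2 : ℝ) ^ k * ‖ξ‖) := mul_le_mul_of_nonneg_right hcard hk0.le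
      _ = 1 * ((2 : ℝ) ^ k * ‖ξ‖ / (2 : ℝ) ^ (-(u : ℤ))) := by
          rw [zpow_neg, zpow_natCast]; field_simp
      _ ≤ _ := mul_le_mul_of_nonneg_right (by linarith) (by positivity)
  · intro k _
    rw [hsumr k]
    refine ENNReal.ofReal_le_ofReal ?_
    have hk0 : (0 : ℝ) < (2 : ℝ) ^ k * ‖ξ‖ := by positivity
    have h1 : ∑ j ∈ Fr, Pso (s j) (m j) (m' j) ((2 : ℝ) ^ k • ξ) ≤
        ∑ _j ∈ Fr, 4 * (2 : ℝ) ^ T / ((2 : ℝ) ^ k * ‖ξ‖) := by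
      refine Finset.sum_le_sum (fun j hj => ?_)
      have hj' := Finset.mem_filter.1 hj
      have hju : j < 2 ^ u := Finset.mem_range.1 hj'.1
      have hfr := shm_far hPT (s j) (hs j hju) T ξ hξ hj'.2
      have h2 := (pso_bds (s j) (m j) (m' j) ((2 : ℝ) ^ k • ξ)).2.2.2
      rw [hinn k (s j)] at h2
      refine h2.trans ?_
      have h3 : 0 < (2 : ℝ) ^ k * ((2 : ℝ) ^ (-(T : ℤ)) * ‖ξ‖ / 4) := by positivity
      have h4 : (2 : ℝ) ^ k * ((2 : ℝ) ^ (-(T : ℤ)) * ‖ξ‖ / 4) ≤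
          1 + (2 : ℝ) ^ k * |⟪E (s j), ξ⟫| := by
        have := mul_le_mul_of_nonneg_left hfr (by positivity : (0 : ℝ) ≤ (2 : ℝ) ^ k)
        linarith
      refine (one_div_le_one_div_of_le h3 h4).trans (le_of_eq ?_)
      rw [zpow_neg, zpow_natCast]
      field_simp
    rw [Finset.sum_const, nsmul_eq_mul] at h1
    have hpos : (0 : ℝ) ≤ 4 * (2 : ℝ) ^ T / ((2 : ℝ) ^ k * ‖ξ‖) := by positivity
    calc _ ≤ (Fr.card : ℝ) * (4 * (2 : ℝ) ^ T / ((2 : ℝ) ^ k * ‖ξ‖)) := h1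
      _ ≤ (2 : ℝ) ^ u * (4 * (2 : ℝ) ^ T / ((2 : ℝ) ^ k * ‖ξ‖)) :=
          mul_le_mul_of_nonneg_right hcard hpos
      _ = 1 * ((2 : ℝ) ^ ((T : ℤ) + u + 2) / ((2 : ℝ) ^ k * ‖ξ‖)) := by
          rw [zpow_add₀ (by norm_num), zpow_add₀ (by norm_num), zpow_natCast, zpow_natCast,
            show ((2 : ℝ) ^ (2 : ℤ)) = 4 by norm_num]
          ring
      _ ≤ _ := mul_le_mul_of_nonneg_right (by linarith) (by positivity)

private theorem sq_sub_enorm (a b : ℂ) :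
    ‖a - b‖ₑ ^ 2 ≤ ENNReal.ofReal 2 * ‖a‖ₑ ^ 2 + ENNReal.ofReal 2 * ‖b‖ₑ ^ 2 := by
  rw [← ofReal_norm, ← ofReal_norm, ← ofReal_norm,
    ← ENNReal.ofReal_pow (norm_nonneg _), ← ENNReal.ofReal_pow (norm_nonneg _),
    ← ENNReal.ofReal_pow (norm_nonneg _), ← ENNReal.ofReal_mul (by norm_num),
    ← ENNReal.ofReal_mul (by norm_num), ← ENNReal.ofReal_add (by positivity) (by positivity)]
  refine ENNReal.ofReal_le_ofReal ?_
  have h1 : ‖a - b‖ ≤ ‖a‖ + ‖b‖ := norm_sub_le a b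
  have h2 := norm_nonneg (a - b)
  nlinarith [sq_nonneg (‖a‖ - ‖b‖)]

/-- SHM -/
theorem hSHM (hPT : Pool.Agent.Helper20.RG.StPT) (hSINC : Pool.Agent.Helper20.RG.StSINC)
    (hOCT : Pool.Agent.Helper20.RG.StOCT) (hKD : Pool.Agent.Helper20.EQ.StKD)
    (hPSM : Pool.Agent.Helper20.EQ.StPSM) : Pool.Agent.Helper61.P3.StSHM := by
  classical
  intro C₀ hC₀
  obtain ⟨C₁, hC₁, hP⟩ := hPSM C₀ hC₀
  obtain ⟨C₂, hC₂, hK, -⟩ := hKD
  refine ⟨4 * C₂ ^ 2 * (C₁ + 1) * 10 + 15000, by positivity, ?_⟩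
  intro u s c m m' R K A σ hS V w T ξ hξ
  set Nr : Finset ℕ := (Finset.range (2 ^ u)).filter
    (fun j => |s j - th ξ| ≤ (2 : ℝ) ^ (-(T : ℤ))) with hNr
  set Fr : Finset ℕ := (Finset.range (2 ^ u)).filter
    (fun j => ¬ |s j - th ξ| ≤ (2 : ℝ) ^ (-(T : ℤ))) with hFr
  set g : ℕ → ℤ → ℝ≥0∞ := fun j k =>
    ‖Zh (s j) 0 (m j) (m' j) ((2 : ℝ) ^ w) ((2 : ℝ) ^ k • ξ) -
      Zh (s j) 0 (m j) (m' j) ((2 : ℝ) ^ w) ((2 : ℝ) ^ (k + (V j : ℤ)) • ξ)‖ₑ ^ 2 with hg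
  set h : ℕ → ℤ → ℝ≥0∞ := fun j k =>
    ‖Zh (s j) 0 (m j) (m' j) ((2 : ℝ) ^ w) ((2 : ℝ) ^ k • ξ)‖ₑ ^ 2 with hh
  have hsplit : (∑' k : ℤ, ∑ j ∈ Finset.range (2 ^ u), g j k) =
      (∑ j ∈ Nr, ∑' k : ℤ, g j k) + ∑' k : ℤ, ∑ j ∈ Fr, g j k := by
    have h1 : ∀ k : ℤ, (∑ j ∈ Finset.range (2 ^ u), g j k) =
        (∑ j ∈ Nr, g j k) + ∑ j ∈ Fr, g j k := by
      intro k
      rw [hNr, hFr, Finset.sum_filter_add_sum_filter_not]
    rw [tsum_congr h1, ENNReal.tsum_add]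
    congr 1
    exact Summable.tsum_finsetSum (fun j _ => ENNReal.summable)
  -- near
  have hnear : ∑ j ∈ Nr, ∑' k : ℤ, g j k ≤
      ENNReal.ofReal (15000 * ∑ j ∈ Nr, ((V j : ℝ) + 1)) := by
    rw [Finset.mul_sum, ENNReal.ofReal_sum_of_nonneg (fun j _ => by positivity)]
    exact Finset.sum_le_sum (fun j _ =>
      shm_near hPT hSINC hOCT (s j) (m j) (m' j) (V j) w ξ hξ)
  -- far
  have hfar1 : ∑' k : ℤ, ∑ j ∈ Fr, g j k ≤ ENNReal.ofReal 4 * ∑' k : ℤ, ∑ j ∈ Fr, h j k := by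
    have e1 : ∑' k : ℤ, ∑ j ∈ Fr, g j k = ∑ j ∈ Fr, ∑' k : ℤ, g j k :=
      Summable.tsum_finsetSum (fun j _ => ENNReal.summable)
    have e2 : ∑' k : ℤ, ∑ j ∈ Fr, h j k = ∑ j ∈ Fr, ∑' k : ℤ, h j k :=
      Summable.tsum_finsetSum (fun j _ => ENNReal.summable)
    rw [e1, e2, Finset.mul_sum]
    refine Finset.sum_le_sum (fun j _ => ?_)
    have e3 : ∀ k : ℤ, g j k ≤ ENNReal.ofReal 2 * h j k +
        ENNReal.ofReal 2 * h j (k + (V j : ℤ)) := fun k => sq_sub_enorm _ _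
    refine (ENNReal.tsum_le_tsum e3).trans ?_
    rw [ENNReal.tsum_add, ENNReal.tsum_mul_left, ENNReal.tsum_mul_left]
    have e4 : ∑' k : ℤ, h j (k + (V j : ℤ)) = ∑' k : ℤ, h j k :=
      (Equiv.addRight (V j : ℤ)).tsum_eq (h j)
    rw [e4, ← add_mul, ← ENNReal.ofReal_add (by norm_num) (by norm_num)]
    norm_num
  have hfar2 : ∑' k : ℤ, ∑ j ∈ Fr, h j k ≤
      ENNReal.ofReal (C₂ ^ 2) * ∑' k : ℤ, ∑ j ∈ Fr,
        ENNReal.ofReal (Pso (s j) (m j) (m' j) ((2 : ℝ) ^ k • ξ)) := by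
    rw [← ENNReal.tsum_mul_left]
    refine ENNReal.tsum_le_tsum (fun k => ?_)
    rw [Finset.mul_sum]
    refine Finset.sum_le_sum (fun j hj => ?_)
    have hj' := Finset.mem_filter.1 hj
    have hju : j < 2 ^ u := Finset.mem_range.1 hj'.1
    have hk : (2 : ℝ) ^ k • ξ ≠ 0 := smul_ne_zero (by positivity) hξ
    have hb := hK (s j) 0 (m j) (m' j) ((2 : ℝ) ^ w) ((2 : ℝ) ^ k • ξ) (hS.mm j hju).1
      (one_le_pow₀ (by norm_num)) hk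
    obtain ⟨p1, p2, -, -⟩ := pso_bds (s j) (m j) (m' j) ((2 : ℝ) ^ k • ξ)
    show ‖Zh (s j) 0 (m j) (m' j) ((2 : ℝ) ^ w) ((2 : ℝ) ^ k • ξ)‖ₑ ^ 2 ≤ _
    rw [← ofReal_norm, ← ENNReal.ofReal_pow (norm_nonneg _),
      ← ENNReal.ofReal_mul (by positivity)]
    refine ENNReal.ofReal_le_ofReal ?_
    calc ‖Zh (s j) 0 (m j) (m' j) ((2 : ℝ) ^ w) ((2 : ℝ) ^ k • ξ)‖ ^ 2
        ≤ (C₂ * Pso (s j) (m j) (m' j) ((2 : ℝ) ^ k • ξ)) ^ 2 :=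
          pow_le_pow_left₀ (norm_nonneg _) hb 2
      _ = C₂ ^ 2 * (Pso (s j) (m j) (m' j) ((2 : ℝ) ^ k • ξ)) ^ 2 := by ring
      _ ≤ C₂ ^ 2 * Pso (s j) (m j) (m' j) ((2 : ℝ) ^ k • ξ) := by
          refine mul_le_mul_of_nonneg_left ?_ (by positivity)
          nlinarith
  have hfar3 := pso_far hPT hOCT C₁ hC₁ u s m m' (fun j hj => hS.slope j hj)
    (fun ζ hζ => hP u s c m m' R K A σ hS ζ hζ) T ξ hξ
  rw [← hFr] at hfar3
  have hfar : ∑' k : ℤ, ∑ j ∈ Fr, g j k ≤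
      ENNReal.ofReal (4 * (C₂ ^ 2 * ((C₁ + 1) * ((T : ℝ) + 2 * u + 10)))) := by
    refine hfar1.trans ?_
    rw [ENNReal.ofReal_mul (by norm_num)]
    refine mul_le_mul_right ?_ _
    refine hfar2.trans ?_
    rw [ENNReal.ofReal_mul (by positivity)]
    exact mul_le_mul_right hfar3 _
  -- total
  have hsn : 0 ≤ ∑ j ∈ Nr, ((V j : ℝ) + 1) := Finset.sum_nonneg (fun j _ => by positivity)
  change (∑' k : ℤ, ∑ j ∈ Finset.range (2 ^ u), g j k) ≤ _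
  rw [hsplit]
  refine (add_le_add hnear hfar).trans ?_
  rw [← ENNReal.ofReal_add (by positivity) (by positivity)]
  refine ENNReal.ofReal_le_ofReal ?_
  have hT0 : (0 : ℝ) ≤ T := Nat.cast_nonneg _
  have hu0 : (0 : ℝ) ≤ u := Nat.cast_nonneg _
  set S₁ : ℝ := ∑ j ∈ Nr, ((V j : ℝ) + 1) with hS₁
  set D : ℝ := 4 * C₂ ^ 2 * (C₁ + 1) with hD
  have hD0 : 0 ≤ D := by positivity
  have k1 : 4 * (C₂ ^ 2 * ((C₁ + 1) * ((T : ℝ) + 2 * u + 10))) =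
      D * ((T : ℝ) + 2 * u + 10) := by
    rw [hD]; ring
  have k2 : D * ((T : ℝ) + 2 * u + 10) ≤ D * (10 * ((T : ℝ) + u + 1)) :=
    mul_le_mul_of_nonneg_left (by linarith) hD0
  have k3 : 0 ≤ D * 10 * S₁ := by positivity
  have k4 : 0 ≤ 15000 * ((T : ℝ) + u + 1) := by positivity
  rw [k1]
  have k5 : (D * 10 + 15000) * ((T : ℝ) + u + 1 + S₁) =
      (D * (10 * ((T : ℝ) + u + 1)) + 15000 * S₁) + (D * 10 * S₁ + 15000 * ((T : ℝ) + u + 1)) := by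
    ring
  rw [k5]
  linarith

end Pool.Agent.Helper76.P3
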